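import Pool.Agent.Lib.H81.Fi.LeftInv

/-!
# The curvature of a left invariant metric which is also invariant under a circle
-/

set_option autoImplicit false

open scoped ContDiff Quaternion RealInnerProductSpace

namespace Pool.Agent.H81Fi

/-- commutator -/
noncomputable def br (a b : ℍ) : ℍ := a * b - b * a

lemma inner_br (z a b : ℍ) : ⟪br z a, b⟫ = -⟪a, br z b⟫ := by
  simp only [br, Quaternion.inner_def, Quaternion.re_mul, Quaternion.re_sub, Quaternion.imI_sub,
    Quaternion.imJ_sub, Quaternion.imK_sub, Quaternion.re_star, Quaternion.imI_star,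
    Quaternion.imJ_star, Quaternion.imK_star, Quaternion.imI_mul, Quaternion.imJ_mul,
    Quaternion.imK_mul]
  ring

lemma br_self (a : ℍ) : br a a = 0 := sub_self _

lemma br_one (a : ℍ) : br a 1 = 0 := by simp [br]

lemma inner_br_self (z a : ℍ) : ⟪br z a, z⟫ = 0 := by
  rw [inner_br, br_self, inner_zero_right, neg_zero]

lemma inner_br_one (z a : ℍ) : ⟪br z a, 1⟫ = 0 := by
  rw [inner_br, br_one, inner_zero_right, neg_zero]

lemma inner_br_right (z a : ℍ) : ⟪br z a, a⟫ = 0 := by
  have h1 := inner_br z a a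
  have h2 := real_inner_comm a (br z a)
  linarith

lemma br_add_left (a b c : ℍ) : br (a + b) c = br a c + br b c := by
  simp only [br, add_mul, mul_add]; abel

lemma br_sub_left (a b c : ℍ) : br (a - b) c = br a c - br b c := by
  simp only [br, sub_mul, mul_sub]; abel

lemma br_sub_right (a b c : ℍ) : br a (b - c) = br a b - br a c := by
  simp only [br, sub_mul, mul_sub]; abel

lemma br_smul_left (r : ℝ) (a b : ℍ) : br (r • a) b = r • br a b := by
  simp only [br, smul_mul_assoc, mul_smul_comm, smul_sub]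

lemma br_smul_right (r : ℝ) (a b : ℍ) : br a (r • b) = r • br a b := by
  simp only [br, smul_mul_assoc, mul_smul_comm, smul_sub]

lemma br_swap (a b : ℍ) : br a b = -br b a := by
  simp only [br, neg_sub]

/-- the algebraic identity behind the curvature formula -/
lemma alg (s p a c : ℝ) (u v w : ℍ) :
    (1 / 2 : ℝ) • ((s • br u w) * v - v * (s • br u w)) +
      (1 / 2 : ℝ) • ((-(s * c)) • br u w + p • br (s • br u w) w)
      - (3 / 4 : ℝ) • (a • br u w + s • br (u * v - v * u) w)
      - (1 / 4 : ℝ) • (u * (u * v - v * u) - (u * v - v * u) * u)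
      + (1 / 4 : ℝ) • (u * (p • br u w + s • br v w) - (p • br u w + s • br v w) * u)
      - (1 / 4 : ℝ) • (p • (s • br (br u w) w) + s • (c • br u w + s • br (br v w) w)) =
    (-(1 / 4) : ℝ) • (br (u - s • w) (br (u - s • w) (v - p • w)) +
      (3 * (a + s * c)) • br (u - s • w) w) := by
  simp only [br, mul_assoc, mul_add, add_mul, mul_sub, sub_mul, smul_mul_assoc, mul_smul_comm,
    smul_sub, smul_add]
  module

/-- Near `u` the metric is invariant under the circle generated by `w`. -/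
structure Half (μ E : ℍ → ℍ) (w : ℍ) (A s b : ℍ → ℝ) (u : ℍ) : Prop where
  hw : ‖w‖ = 1
  hμ : ∀ᶠ a in nhds u, μ a = A a • (a - s a • w) + b a • (1 : ℍ)
  hE : ∀ᶠ a in nhds u, E a = s a • br a w
  hs : ContDiffAt ℝ 2 s u
  hA : DifferentiableAt ℝ A u
  hb : DifferentiableAt ℝ b u
  ks : ∀ᶠ a in nhds u, fderiv ℝ s a (br a w) = 0
  kA : fderiv ℝ A u (br u w) = 0
  kb : fderiv ℝ b u (br u w) = 0

variable {μ E : ℍ → ℍ} {w : ℍ} {A s b : ℍ → ℝ} {u : ℍ}

lemma line_br (u h w : ℍ) : HasDerivAt (fun t : ℝ => br (u + t • h) w) (br h w) 0 := by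
  have l := line_id u h
  exact (l.mul_const w).sub (l.const_mul w)

lemma diff_br (u w : ℍ) : DifferentiableAt ℝ (fun a => br a w) u := by
  unfold br; fun_prop

lemma Half.dE_of {a : ℍ} (hE : ∀ᶠ a in nhds a, E a = s a • br a w) (hs : DifferentiableAt ℝ s a)
    (v : ℍ) : fderiv ℝ E a v = fderiv ℝ s a v • br a w + s a • br v w := by
  have hE' : E =ᶠ[nhds a] fun a => s a • br a w := hE
  rw [hE'.fderiv_eq]
  apply fderiv_line (hs.smul (diff_br a w))
  have h1 := comp_line hs (line_id a v) (by simp)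
  refine (h1.smul (line_br a v w)).congr_deriv ?_
  simp [add_comm]

lemma Half.dE (H : Half μ E w A s b u) :
    ∀ᶠ a in nhds u, ∀ v, fderiv ℝ E a v = fderiv ℝ s a v • br a w + s a • br v w := by
  have h1 : ∀ᶠ a in nhds u, ContDiffAt ℝ 2 s a := H.hs.eventually (by norm_num)
  filter_upwards [H.hE.eventually_nhds, h1] with a ha hs v
  exact Half.dE_of ha (hs.differentiableAt (by norm_num)) v

/-- second derivative of the spray -/
lemma Half.ddE (H : Half μ E w A s b u) (hE : ContDiffAt ℝ 2 E u) (h v : ℍ) :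
    fderiv ℝ (fderiv ℝ E) u h v = fderiv ℝ (fderiv ℝ s) u h v • br u w + fderiv ℝ s u v • br h w +
      fderiv ℝ s u h • br v w := by
  have d1 : DifferentiableAt ℝ (fderiv ℝ E) u := c2_fderiv hE
  have d2 : DifferentiableAt ℝ (fderiv ℝ s) u := c2_fderiv H.hs
  have d3 : DifferentiableAt ℝ s u := H.hs.differentiableAt (by norm_num)
  have e1 : fderiv ℝ (fun a => fderiv ℝ E a v) u h = fderiv ℝ (fderiv ℝ E) u h v := by
    apply fderiv_line (diff_clm d1 rfl differentiableAt_id (differentiableAt_const v))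
    refine (line_clm d1 (line_id u h) (by simp) (hasDerivAt_const (0 : ℝ) v)).congr_deriv ?_
    simp
  rw [← e1]
  have e2 : (fun a => fderiv ℝ E a v) =ᶠ[nhds u]
      fun a => fderiv ℝ s a v • br a w + s a • br v w := by
    filter_upwards [H.dE] with a ha
    exact ha v
  rw [e2.fderiv_eq]
  have d4 : DifferentiableAt ℝ (fun a => fderiv ℝ s a v) u :=
    diff_clm d2 rfl differentiableAt_id (differentiableAt_const v)
  apply fderiv_line ((d4.smul (diff_br u w)).add (d3.smul_const _))
  have h1 := (line_clm d2 (line_id u h) (by simp) (hasDerivAt_const (0 : ℝ) v)).smul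
    (line_br u h w)
  have h2 := (comp_line d3 (line_id u h) (by simp)).smul_const (br v w)
  refine (h1.add h2).congr_deriv ?_
  simp only [zero_smul, add_zero, map_zero]
  abel

/-- consequence of the invariance of `s` -/
lemma Half.dds (H : Half μ E w A s b u) (v : ℍ) :
    fderiv ℝ (fderiv ℝ s) u (br u w) v = -fderiv ℝ s u (br v w) := by
  have d2 : DifferentiableAt ℝ (fderiv ℝ s) u := c2_fderiv H.hs
  have hsym : fderiv ℝ (fderiv ℝ s) u (br u w) v = fderiv ℝ (fderiv ℝ s) u v (br u w) :=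
    H.hs.isSymmSndFDerivAt (by simp) _ _
  rw [hsym]
  have h0 : fderiv ℝ (fun a => fderiv ℝ s a (br a w)) u v = 0 := by
    have : (fun a => fderiv ℝ s a (br a w)) =ᶠ[nhds u] fun _ => 0 := H.ks
    rw [this.fderiv_eq]
    simp
  have h1 : fderiv ℝ (fun a => fderiv ℝ s a (br a w)) u v =
      fderiv ℝ (fderiv ℝ s) u v (br u w) + fderiv ℝ s u (br v w) := by
    apply fderiv_line (diff_clm d2 rfl differentiableAt_id (diff_br u w))
    refine (line_clm d2 (line_id u v) (by simp) (line_br u v w)).congr_deriv ?_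
    simp
  linarith

lemma Half.curv (H : Half μ E w A s b u) (hE : ContDiffAt ℝ 2 E u) (v : ℍ) :
    curv E u v = (-(1 / 4) : ℝ) • (br (u - s u • w) (br (u - s u • w) (v - fderiv ℝ s u v • w)) +
      (3 * fderiv ℝ s u (br (u - s u • w) v)) • br (u - s u • w) w) := by
  have hE0 : E u = s u • br u w := H.hE.self_of_nhds
  have hk : fderiv ℝ s u (br u w) = 0 := H.ks.self_of_nhds
  have hdE := H.dE.self_of_nhds
  have e1 : fderiv ℝ s u (br (u - s u • w) v) =
      fderiv ℝ s u (u * v - v * u) + s u * fderiv ℝ s u (br v w) := by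
    rw [br_sub_left, br_smul_left, br_swap w v, map_sub, smul_neg, map_neg, map_smul, smul_eq_mul]
    show fderiv ℝ s u (u * v - v * u) - _ = _
    ring
  rw [e1, ← alg]
  unfold H81Fi.curv
  rw [hE0, H.ddE hE, map_smul, smul_apply, H.dds, map_smul, hk]
  simp only [hdE, map_add, map_smul, hk, smul_eq_mul]
  simp only [mul_zero, zero_smul, add_zero, zero_add, mul_neg, br_add_left, br_smul_left]
  module

lemma Half.dμ (H : Half μ E w A s b u) (v : ℍ) :
    fderiv ℝ μ u v = A u • (v - fderiv ℝ s u v • w) + fderiv ℝ A u v • (u - s u • w) +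
      fderiv ℝ b u v • (1 : ℍ) := by
  have hμ : μ =ᶠ[nhds u] fun a => A a • (a - s a • w) + b a • (1 : ℍ) := H.hμ
  have d3 : DifferentiableAt ℝ s u := H.hs.differentiableAt (by norm_num)
  rw [hμ.fderiv_eq]
  have hd : DifferentiableAt ℝ (fun a => a - s a • w) u :=
    differentiableAt_id.sub (d3.smul_const w)
  apply fderiv_line ((H.hA.smul hd).add (H.hb.smul_const 1))
  have l := line_id u v
  have h1 := (comp_line H.hA l (by simp)).smul (l.sub ((comp_line d3 l (by simp)).smul_const w))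
  have h2 := (comp_line H.hb l (by simp)).smul_const (1 : ℍ)
  refine (h1.add h2).congr_deriv ?_
  simp

/-- the vector whose vanishing characterises the flags of curvature zero -/
noncomputable def qv (w : ℍ) (s : ℍ → ℝ) (u v : ℍ) : ℍ :=
  br (u - s u • w) (v - fderiv ℝ s u v • w)

lemma Half.dsz (H : Half μ E w A s b u) (v : ℍ) :
    fderiv ℝ s u (br (u - s u • w) v) = fderiv ℝ s u (qv w s u v) := by
  have hk : fderiv ℝ s u (br u w) = 0 := H.ks.self_of_nhds
  have h1 : br (u - s u • w) w = br u w := by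
    rw [br_sub_left, br_smul_left, br_self, smul_zero, sub_zero]
  unfold qv
  rw [br_sub_right, br_smul_right, map_sub, map_smul, h1, hk, smul_zero, sub_zero]

lemma Half.inner (H : Half μ E w A s b u) (hE : ContDiffAt ℝ 2 E u) (v : ℍ) :
    ⟪fderiv ℝ μ u v, H81Fi.curv E u v⟫ =
      A u / 4 * (‖qv w s u v‖ ^ 2 + 3 * fderiv ℝ s u (qv w s u v) * ⟪w, qv w s u v⟫) := by
  rw [H.curv hE, H.dsz, H.dμ]
  set z := u - s u • w
  have hq : qv w s u v = br z (v - fderiv ℝ s u v • w) := rfl
  rw [← hq]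
  set κ := 3 * fderiv ℝ s u (qv w s u v)
  set q := qv w s u v
  have h1 : ⟪z, br z q + κ • br z w⟫ = 0 := by
    rw [inner_add_right, inner_smul_right, real_inner_comm, inner_br_self, real_inner_comm,
      inner_br_self]
    ring
  have h2 : ⟪(1 : ℍ), br z q + κ • br z w⟫ = 0 := by
    rw [inner_add_right, inner_smul_right, real_inner_comm, inner_br_one, real_inner_comm,
      inner_br_one]
    ring
  have h3 : ⟪v - fderiv ℝ s u v • w, br z q + κ • br z w⟫ = -(‖q‖ ^ 2 + κ * ⟪w, q⟫) := by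
    rw [inner_add_right, inner_smul_right, real_inner_comm, inner_br, ← hq,
      real_inner_comm (br z w) , inner_br z w, ← hq, real_inner_self_eq_norm_sq]
    ring
  rw [inner_add_left, inner_add_left, inner_smul_left, inner_smul_left, inner_smul_left,
    inner_smul_right, inner_smul_right, inner_smul_right, h1, h2, h3]
  simp only [conj_trivial]
  ring

lemma Half.lower (H : Half μ E w A s b u) (hE : ContDiffAt ℝ 2 E u) (hA : 0 ≤ A u) {c : ℝ}
    (hc : ‖fderiv ℝ s u‖ ≤ c) (v : ℍ) :
    A u / 4 * ((1 - 3 * c) * ‖qv w s u v‖ ^ 2) ≤ ⟪fderiv ℝ μ u v, H81Fi.curv E u v⟫ := by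
  rw [H.inner hE]
  apply mul_le_mul_of_nonneg_left _ (by linarith)
  set q := qv w s u v
  have h1 : |fderiv ℝ s u q| ≤ c * ‖q‖ := by
    have := (fderiv ℝ s u).le_opNorm q
    rw [Real.norm_eq_abs] at this
    exact this.trans (mul_le_mul_of_nonneg_right hc (norm_nonneg _))
  have h2 : |⟪w, q⟫| ≤ ‖q‖ := by
    have := abs_real_inner_le_norm w q
    rwa [H.hw, one_mul] at this
  have h3 : |fderiv ℝ s u q * ⟪w, q⟫| ≤ c * ‖q‖ * ‖q‖ := by
    rw [abs_mul]
    exact mul_le_mul h1 h2 (abs_nonneg _) ((abs_nonneg _).trans h1)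
  have h4 := (abs_le.1 h3).1
  nlinarith

/-- the Euler-Poincare equation -/
lemma Half.ep (H : Half μ E w A s b u) (v : ℍ) :
    ⟪fderiv ℝ μ u (E u), v⟫ = ⟪μ u, u * v - v * u⟫ := by
  have hE0 : E u = s u • br u w := H.hE.self_of_nhds
  have hμ0 : μ u = A u • (u - s u • w) + b u • (1 : ℍ) := H.hμ.self_of_nhds
  have hk : fderiv ℝ s u (br u w) = 0 := H.ks.self_of_nhds
  rw [hE0, map_smul, H.dμ, hk, H.kA, H.kb, hμ0]
  show _ = ⟪_, br u v⟫
  have e1 : ⟪u, br u v⟫ = 0 := by rw [real_inner_comm, inner_br_self]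
  have e2 : ⟪(1 : ℍ), br u v⟫ = 0 := by rw [real_inner_comm, inner_br_one]
  have e3 : ⟪w, br u v⟫ = -⟪br u w, v⟫ := by rw [inner_br]; ring
  simp only [zero_smul, sub_zero, add_zero, inner_add_left, inner_smul_left, inner_sub_left,
    e1, e2, e3, conj_trivial]
  ring

end Pool.Agent.H81Fi
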