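import Mathlib

/-!
# Finsler metrics on open subsets of a normed space

Flag curvature in standard coordinates.
-/

set_option autoImplicit false

open scoped ContDiff

namespace Pool.Agent.H81Fi

variable {E : Type*} [NormedAddCommGroup E] [NormedSpace ℝ E]

/-- The fundamental tensor of `F` at `(x, y)`: half of the second derivative of the square of
`F x` at `y` in the directions `v` and `w`. -/
noncomputable def fund (F : E → E → ℝ) (x y v w : E) : ℝ :=
  1 / 2 * fderiv ℝ (fun a => fderiv ℝ (fun b => F x b ^ 2) a v) y w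

/-- `F` is a Finsler metric on the open set `U`; tangent vectors at `x` are elements `y` of `E`. -/
structure IsFinsler (U : Set E) (F : E → E → ℝ) : Prop where
  /-- the domain is open -/
  isOpen : IsOpen U
  /-- `F` is smooth off the zero section -/
  smooth : ContDiffOn ℝ ∞ (fun p : E × E => F p.1 p.2) (U ×ˢ {0}ᶜ)
  /-- `F` is positive off the zero section -/
  pos : ∀ x ∈ U, ∀ y, y ≠ 0 → 0 < F x y
  /-- `F` is positively homogeneous -/
  homog : ∀ x ∈ U, ∀ y, ∀ c : ℝ, 0 ≤ c → F x (c • y) = c * F x y
  /-- the fundamental tensor is positive definite -/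
  convex : ∀ x ∈ U, ∀ y, y ≠ 0 → ∀ v, v ≠ 0 → 0 < fund F x y v v

/-- `g` is the vector of spray coefficients `G` of `F` at `(x, y)`. -/
def IsSpray (F : E → E → ℝ) (x y g : E) : Prop :=
  ∀ v, fund F x y v g = 1 / 4 * (fderiv ℝ (fun a => fderiv ℝ (fun b => F a b ^ 2) y v) x y -
    fderiv ℝ (fun a => F a y ^ 2) x v)

/-- The spray coefficients `G` of `F` (geodesics solve `x'' + 2 G(x, x') = 0`). -/
noncomputable def spray (F : E → E → ℝ) (x y : E) : E := Classical.epsilon (IsSpray F x y)

/-- The Riemann curvature `R_y v` of `F` at `x`. -/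
noncomputable def riem (F : E → E → ℝ) (x y v : E) : E :=
  (2 : ℝ) • fderiv ℝ (fun a => spray F a y) x v
    - fderiv ℝ (fun a => fderiv ℝ (fun b => spray F a b) y v) x y
    + (2 : ℝ) • fderiv ℝ (fun b => fderiv ℝ (fun c => spray F x c) b v) y (spray F x y)
    - fderiv ℝ (fun b => spray F x b) y (fderiv ℝ (fun b => spray F x b) y v)

/-- The flag curvature of the flag with pole `y` and plane spanned by `y` and `v`. -/
noncomputable def flagCurv (F : E → E → ℝ) (x y v : E) : ℝ :=
  fund F x y (riem F x y v) v /
    (fund F x y y y * fund F x y v v - fund F x y y v ^ 2)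

/-- All flag curvatures are non-negative. -/
def NonnegCurved (U : Set E) (F : E → E → ℝ) : Prop :=
  ∀ x ∈ U, ∀ y v, LinearIndependent ℝ ![y, v] → 0 ≤ flagCurv F x y v

/-- Flag-wise positively curved: every tangent plane `P` contains a vector `y` such that the flag
with pole `y` and plane `P` has positive flag curvature. -/
def FlagwisePos (U : Set E) (F : E → E → ℝ) : Prop :=
  ∀ x ∈ U, ∀ P : Submodule ℝ E, Module.finrank ℝ P = 2 →
    ∃ y ∈ P, ∃ v ∈ P, LinearIndependent ℝ ![y, v] ∧ 0 < flagCurv F x y v

end Pool.Agent.H81Fi
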