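import Pool.Agent.Lib.H81.Fi.Defs

/-!
# Left invariant Finsler metrics on the group of nonzero quaternions
-/

set_option autoImplicit false

open scoped ContDiff Quaternion RealInnerProductSpace

namespace Pool.Agent.H81Fi

section abs

variable {V W : Type*} [NormedAddCommGroup V] [NormedSpace ℝ V] [NormedAddCommGroup W]
  [NormedSpace ℝ W]

lemma line_clm {f : V → V →L[ℝ] W} {c d : ℝ → V} {u c' d' : V} (hf : DifferentiableAt ℝ f u)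
    (hc : HasDerivAt c c' 0) (h0 : c 0 = u) (hd : HasDerivAt d d' 0) :
    HasDerivAt (fun t => f (c t) (d t)) (fderiv ℝ f u c' (d 0) + f u d') 0 := by
  subst h0
  exact (hf.hasFDerivAt.comp_hasDerivAt (0 : ℝ) hc).clm_apply hd

lemma diff_clm {f : V → V →L[ℝ] W} {c d : V → V} {x u : V} (hf : DifferentiableAt ℝ f u)
    (h0 : c x = u) (hc : DifferentiableAt ℝ c x) (hd : DifferentiableAt ℝ d x) :
    DifferentiableAt ℝ (fun a => f (c a) (d a)) x := by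
  subst h0
  exact (hf.comp x hc).clm_apply hd

lemma c2_fderiv {f : V → W} {u : V} (h : ContDiffAt ℝ 2 f u) : DifferentiableAt ℝ (fderiv ℝ f) u :=
  (h.fderiv_right (m := 1) (by norm_num)).differentiableAt (by norm_num)

end abs

/-- derivative along a line -/
lemma fderiv_line {G : Type*} [NormedAddCommGroup G] [NormedSpace ℝ G] {f : ℍ → G} {x v : ℍ}
    {d : G} (hf : DifferentiableAt ℝ f x) (h : HasDerivAt (fun t : ℝ => f (x + t • v)) d 0) :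
    fderiv ℝ f x v = d :=
  (hf.hasFDerivAt.hasLineDerivAt v).unique h

lemma line_id (x v : ℍ) : HasDerivAt (fun t : ℝ => x + t • v) v 0 := by
  have := ((hasDerivAt_id (0 : ℝ)).smul_const v).const_add x
  simpa using this

lemma diff_inv {x : ℍ} (hx : x ≠ 0) : DifferentiableAt ℝ (fun a : ℍ => a⁻¹) x :=
  (hasFDerivAt_inv' (𝕜 := ℝ) hx).differentiableAt

lemma line_inv {x : ℍ} (hx : x ≠ 0) (v : ℍ) :
    HasDerivAt (fun t : ℝ => (x + t • v)⁻¹) (-(x⁻¹ * v * x⁻¹)) 0 := by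
  have h : HasDerivAt (fun t : ℝ => (x + t • v)⁻¹) _ 0 :=
    (hasFDerivAt_inv' (𝕜 := ℝ) hx).comp_hasDerivAt_of_eq (0 : ℝ) (line_id x v) (by simp)
  exact h.congr_deriv (by simp)

/-- composition with a differentiable map along a curve -/
lemma comp_line {G : Type*} [NormedAddCommGroup G] [NormedSpace ℝ G] {f : ℍ → G} {c : ℝ → ℍ}
    {u c' : ℍ} (hf : DifferentiableAt ℝ f u) (hc : HasDerivAt c c' 0) (h0 : c 0 = u) :
    HasDerivAt (fun t => f (c t)) (fderiv ℝ f u c') 0 := by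
  subst h0
  exact hf.hasFDerivAt.comp_hasDerivAt (0 : ℝ) hc

/-- the curvature of a left invariant spray -/
noncomputable def curv (E : ℍ → ℍ) (u v : ℍ) : ℍ :=
  (1 / 2 : ℝ) • (E u * v - v * E u) + (1 / 2 : ℝ) • fderiv ℝ (fderiv ℝ E) u (E u) v
    - (3 / 4 : ℝ) • fderiv ℝ E u (u * v - v * u)
    - (1 / 4 : ℝ) • (u * (u * v - v * u) - (u * v - v * u) * u)
    + (1 / 4 : ℝ) • (u * fderiv ℝ E u v - fderiv ℝ E u v * u)
    - (1 / 4 : ℝ) • fderiv ℝ E u (fderiv ℝ E u v)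

/-- left invariant data: `ℓ` is half of the square of the norm, `μ` its gradient and `E` the
Euler-Poincare vector field -/
structure Data (F : ℍ → ℍ → ℝ) (ℓ : ℍ → ℝ) (μ E : ℍ → ℍ) : Prop where
  hF : ∀ x, x ≠ 0 → ∀ y, F x y ^ 2 = 2 * ℓ (x⁻¹ * y)
  hℓ : ∀ u, u ≠ 0 → HasFDerivAt ℓ (innerSL ℝ (μ u)) u
  hμ : ∀ u, u ≠ 0 → ContDiffAt ℝ 2 μ u
  hE : ∀ u, u ≠ 0 → ContDiffAt ℝ 2 E u
  conv : ∀ u, u ≠ 0 → ∀ v, v ≠ 0 → 0 < ⟪fderiv ℝ μ u v, v⟫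
  ep : ∀ u, u ≠ 0 → ∀ v, ⟪fderiv ℝ μ u (E u), v⟫ = ⟪μ u, u * v - v * u⟫

variable {F : ℍ → ℍ → ℝ} {ℓ : ℍ → ℝ} {μ E : ℍ → ℍ}

lemma ne_mul {x y : ℍ} (hx : x ≠ 0) (hy : y ≠ 0) : x⁻¹ * y ≠ 0 := mul_ne_zero (inv_ne_zero hx) hy

lemma ev_ne {x : ℍ} (hx : x ≠ 0) : ∀ᶠ a in nhds x, a ≠ 0 := isOpen_ne.mem_nhds hx

/-- first derivative in the fibre -/
lemma Data.dy (D : Data F ℓ μ E) {x y : ℍ} (hx : x ≠ 0) (hy : y ≠ 0) (v : ℍ) :
    fderiv ℝ (fun b => F x b ^ 2) y v = 2 * ⟪μ (x⁻¹ * y), x⁻¹ * v⟫ := by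
  have h1 : (fun b => F x b ^ 2) = fun b => 2 * ℓ (x⁻¹ * b) := funext fun b => D.hF x hx b
  rw [h1]
  have h2 : HasFDerivAt (fun b : ℍ => x⁻¹ * b) (ContinuousLinearMap.mul ℝ ℍ x⁻¹) y :=
    (ContinuousLinearMap.mul ℝ ℍ x⁻¹).hasFDerivAt
  have h3 : HasFDerivAt (fun b => 2 * ℓ (x⁻¹ * b)) _ y :=
    ((D.hℓ _ (ne_mul hx hy)).comp y h2).const_mul 2
  rw [h3.fderiv]
  simp

/-- fundamental tensor -/
lemma Data.fund (D : Data F ℓ μ E) {x y : ℍ} (hx : x ≠ 0) (hy : y ≠ 0) (v w : ℍ) :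
    fund F x y v w = ⟪fderiv ℝ μ (x⁻¹ * y) (x⁻¹ * w), x⁻¹ * v⟫ := by
  have h1 : (fun a => fderiv ℝ (fun b => F x b ^ 2) a v) =ᶠ[nhds y]
      fun a => 2 * ⟪μ (x⁻¹ * a), x⁻¹ * v⟫ := by
    filter_upwards [ev_ne hy] with a ha
    exact D.dy hx ha v
  have hd : DifferentiableAt ℝ μ (x⁻¹ * y) :=
    (D.hμ _ (ne_mul hx hy)).differentiableAt (by norm_num)
  have h2 : HasFDerivAt (fun b : ℍ => x⁻¹ * b) (ContinuousLinearMap.mul ℝ ℍ x⁻¹) y :=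
    (ContinuousLinearMap.mul ℝ ℍ x⁻¹).hasFDerivAt
  have h3 : HasFDerivAt (fun b => μ (x⁻¹ * b)) _ y := hd.hasFDerivAt.comp y h2
  have h4 : HasFDerivAt (fun b => 2 * ⟪μ (x⁻¹ * b), x⁻¹ * v⟫) _ y :=
    (h3.inner ℝ (hasFDerivAt_const (x⁻¹ * v) y)).const_mul 2
  unfold H81Fi.fund
  rw [h1.fderiv_eq, h4.fderiv]
  simp

/-- derivative in the base -/
lemma Data.dx (D : Data F ℓ μ E) {x y : ℍ} (hx : x ≠ 0) (hy : y ≠ 0) (v : ℍ) :
    fderiv ℝ (fun a => F a y ^ 2) x v = -(2 * ⟪μ (x⁻¹ * y), x⁻¹ * v * (x⁻¹ * y)⟫) := by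
  have h1 : (fun a => F a y ^ 2) =ᶠ[nhds x] fun a => 2 * ℓ (a⁻¹ * y) := by
    filter_upwards [ev_ne hx] with a ha
    exact D.hF a ha y
  rw [h1.fderiv_eq]
  have hd : DifferentiableAt ℝ ℓ (x⁻¹ * y) := (D.hℓ _ (ne_mul hx hy)).differentiableAt
  have hi : DifferentiableAt ℝ (fun a : ℍ => a⁻¹ * y) x :=
    (diff_inv hx).mul_const y
  have h2 : DifferentiableAt ℝ (fun a : ℍ => 2 * ℓ (a⁻¹ * y)) x :=
    (DifferentiableAt.comp (g := ℓ) x hd hi).const_mul 2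
  apply fderiv_line h2
  have h3 := comp_line hd ((line_inv hx v).mul_const y) (by simp)
  have h4 := h3.const_mul 2
  rw [HasFDerivAt.fderiv (D.hℓ _ (ne_mul hx hy))] at h4
  refine h4.congr_deriv ?_
  simp [mul_assoc]

/-- mixed derivative -/
lemma Data.dxdy (D : Data F ℓ μ E) {x y : ℍ} (hx : x ≠ 0) (hy : y ≠ 0) (v : ℍ) :
    fderiv ℝ (fun a => fderiv ℝ (fun b => F a b ^ 2) y v) x y =
      -(2 * (⟪fderiv ℝ μ (x⁻¹ * y) (x⁻¹ * y * (x⁻¹ * y)), x⁻¹ * v⟫ +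
        ⟪μ (x⁻¹ * y), x⁻¹ * y * (x⁻¹ * v)⟫)) := by
  have h1 : (fun a => fderiv ℝ (fun b => F a b ^ 2) y v) =ᶠ[nhds x]
      fun a => 2 * ⟪μ (a⁻¹ * y), a⁻¹ * v⟫ := by
    filter_upwards [ev_ne hx] with a ha
    exact D.dy ha hy v
  rw [h1.fderiv_eq]
  have hd : DifferentiableAt ℝ μ (x⁻¹ * y) :=
    (D.hμ _ (ne_mul hx hy)).differentiableAt (by norm_num)
  have hi : ∀ c : ℍ, DifferentiableAt ℝ (fun a : ℍ => a⁻¹ * c) x := fun c =>
    (diff_inv hx).mul_const c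
  have h2 : DifferentiableAt ℝ (fun a : ℍ => 2 * ⟪μ (a⁻¹ * y), a⁻¹ * v⟫) x :=
    (((DifferentiableAt.comp (g := μ) x hd (hi y)).inner ℝ (hi v))).const_mul 2
  apply fderiv_line h2
  have h3 := comp_line hd ((line_inv hx y).mul_const y) (by simp)
  have h4 := (h3.inner ℝ ((line_inv hx y).mul_const v)).const_mul 2
  refine h4.congr_deriv ?_
  simp only [zero_smul, add_zero, neg_mul, map_neg, inner_neg_left, inner_neg_right, mul_assoc]
  ring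

lemma Data.isSpray (D : Data F ℓ μ E) {x y : ℍ} (hx : x ≠ 0) (hy : y ≠ 0) :
    IsSpray F x y ((-(1 / 2) : ℝ) • (y * x⁻¹ * y + x * E (x⁻¹ * y))) := by
  intro v
  rw [D.fund hx hy, D.dxdy hx hy, D.dx hx hy]
  have h1 : x⁻¹ * ((-(1 / 2) : ℝ) • (y * x⁻¹ * y + x * E (x⁻¹ * y))) =
      (-(1 / 2) : ℝ) • (x⁻¹ * y * (x⁻¹ * y)) + (-(1 / 2) : ℝ) • E (x⁻¹ * y) := by
    rw [mul_smul_comm, mul_add, smul_add, ← mul_assoc x⁻¹ x, inv_mul_cancel₀ hx, one_mul]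
    simp only [mul_assoc]
  rw [h1, map_add, map_smul, map_smul, inner_add_left, inner_smul_left, inner_smul_left,
    D.ep _ (ne_mul hx hy), inner_sub_right]
  simp only [conj_trivial, mul_assoc]
  ring

lemma Data.spray (D : Data F ℓ μ E) {x y : ℍ} (hx : x ≠ 0) (hy : y ≠ 0) :
    spray F x y = (-(1 / 2) : ℝ) • (y * x⁻¹ * y + x * E (x⁻¹ * y)) := by
  have h1 := D.isSpray hx hy
  have h2 : IsSpray F x y (H81Fi.spray F x y) := Classical.epsilon_spec ⟨_, h1⟩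
  set g := H81Fi.spray F x y
  set g0 := (-(1 / 2) : ℝ) • (y * x⁻¹ * y + x * E (x⁻¹ * y))
  by_contra hne
  have h3 : g - g0 ≠ 0 := sub_ne_zero.2 hne
  have h4 := D.conv _ (ne_mul hx hy) _ (mul_ne_zero (inv_ne_zero hx) h3)
  have h5 : H81Fi.fund F x y (g - g0) g = H81Fi.fund F x y (g - g0) g0 := by
    rw [h1 (g - g0), h2 (g - g0)]
  rw [D.fund hx hy, D.fund hx hy] at h5
  have h6 : ⟪fderiv ℝ μ (x⁻¹ * y) (x⁻¹ * (g - g0)), x⁻¹ * (g - g0)⟫ = 0 := by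
    rw [mul_sub, map_sub, inner_sub_left, ← mul_sub, h5, sub_self]
  exact h4.ne' h6

/-- derivative of the spray in the fibre -/
lemma Data.ny (D : Data F ℓ μ E) {x y : ℍ} (hx : x ≠ 0) (hy : y ≠ 0) (v : ℍ) :
    fderiv ℝ (fun b => H81Fi.spray F x b) y v = (-(1 / 2) : ℝ) • (v * x⁻¹ * y + y * x⁻¹ * v +
      x * fderiv ℝ E (x⁻¹ * y) (x⁻¹ * v)) := by
  have h1 : (fun b => H81Fi.spray F x b) =ᶠ[nhds y]
      fun b => (-(1 / 2) : ℝ) • (b * x⁻¹ * b + x * E (x⁻¹ * b)) := by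
    filter_upwards [ev_ne hy] with b hb
    exact D.spray hx hb
  rw [h1.fderiv_eq]
  have hd : DifferentiableAt ℝ E (x⁻¹ * y) :=
    (D.hE _ (ne_mul hx hy)).differentiableAt (by norm_num)
  have hi : DifferentiableAt ℝ (fun b : ℍ => x⁻¹ * b) y := differentiableAt_id.const_mul x⁻¹
  have hc : DifferentiableAt ℝ (fun b : ℍ => E (x⁻¹ * b)) y := DifferentiableAt.comp y hd hi
  have hm : DifferentiableAt ℝ (fun b : ℍ => b * x⁻¹ * b) y := by fun_prop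
  have h2 : DifferentiableAt ℝ (fun b : ℍ => (-(1 / 2) : ℝ) • (b * x⁻¹ * b + x * E (x⁻¹ * b))) y :=
    (hm.add (hc.const_mul x)).const_smul (-(1 / 2) : ℝ)
  apply fderiv_line h2
  have l := line_id y v
  have h3 := comp_line hd (l.const_mul x⁻¹) (by simp)
  have h4 := (((l.mul_const x⁻¹).mul l).add (h3.const_mul x)).const_smul (-(1 / 2) : ℝ)
  refine h4.congr_deriv ?_
  simp

/-- derivative of the spray in the base -/
lemma Data.nx (D : Data F ℓ μ E) {x y : ℍ} (hx : x ≠ 0) (hy : y ≠ 0) (v : ℍ) :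
    fderiv ℝ (fun a => H81Fi.spray F a y) x v = (-(1 / 2) : ℝ) • (-(y * (x⁻¹ * v * x⁻¹) * y) +
      (v * E (x⁻¹ * y) - x * fderiv ℝ E (x⁻¹ * y) (x⁻¹ * v * x⁻¹ * y))) := by
  have h1 : (fun a => H81Fi.spray F a y) =ᶠ[nhds x]
      fun a => (-(1 / 2) : ℝ) • (y * a⁻¹ * y + a * E (a⁻¹ * y)) := by
    filter_upwards [ev_ne hx] with b hb
    exact D.spray hb hy
  rw [h1.fderiv_eq]
  have hd : DifferentiableAt ℝ E (x⁻¹ * y) :=
    (D.hE _ (ne_mul hx hy)).differentiableAt (by norm_num)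
  have hi : DifferentiableAt ℝ (fun a : ℍ => a⁻¹ * y) x := (diff_inv hx).mul_const y
  have hc : DifferentiableAt ℝ (fun a : ℍ => E (a⁻¹ * y)) x := DifferentiableAt.comp x hd hi
  have hm : DifferentiableAt ℝ (fun a : ℍ => y * a⁻¹ * y) x :=
    ((diff_inv hx).const_mul y).mul_const y
  have h2 : DifferentiableAt ℝ (fun a : ℍ => (-(1 / 2) : ℝ) • (y * a⁻¹ * y + a * E (a⁻¹ * y))) x :=
    (hm.add (differentiableAt_id.mul hc)).const_smul (-(1 / 2) : ℝ)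
  apply fderiv_line h2
  have l := line_id x v
  have li := line_inv hx v
  have h3 := comp_line hd (li.mul_const y) (by simp)
  have h4 := ((((li.const_mul y).mul_const y)).add (l.mul h3)).const_smul (-(1 / 2) : ℝ)
  refine h4.congr_deriv ?_
  simp [sub_eq_add_neg]

/-- second derivative of the spray in the fibre -/
lemma Data.nyy (D : Data F ℓ μ E) {x y : ℍ} (hx : x ≠ 0) (hy : y ≠ 0) (v h : ℍ) :
    fderiv ℝ (fun b => fderiv ℝ (fun c => H81Fi.spray F x c) b v) y h =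
      (-(1 / 2) : ℝ) • (v * x⁻¹ * h + h * x⁻¹ * v +
      x * fderiv ℝ (fderiv ℝ E) (x⁻¹ * y) (x⁻¹ * h) (x⁻¹ * v)) := by
  have h1 : (fun b => fderiv ℝ (fun c => H81Fi.spray F x c) b v) =ᶠ[nhds y]
      fun b => (-(1 / 2) : ℝ) • (v * x⁻¹ * b + b * x⁻¹ * v +
      x * fderiv ℝ E (x⁻¹ * b) (x⁻¹ * v)) := by
    filter_upwards [ev_ne hy] with b hb
    exact D.ny hx hb v
  rw [h1.fderiv_eq]
  have hd : DifferentiableAt ℝ (fderiv ℝ E) (x⁻¹ * y) := c2_fderiv (D.hE _ (ne_mul hx hy))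
  have hi : DifferentiableAt ℝ (fun b : ℍ => x⁻¹ * b) y := differentiableAt_id.const_mul x⁻¹
  have hc' : DifferentiableAt ℝ (fun b : ℍ => fderiv ℝ E (x⁻¹ * b) (x⁻¹ * v)) y :=
    diff_clm hd rfl hi (differentiableAt_const _)
  have hm : DifferentiableAt ℝ (fun b : ℍ => v * x⁻¹ * b + b * x⁻¹ * v) y := by fun_prop
  have h2 : DifferentiableAt ℝ (fun b : ℍ => (-(1 / 2) : ℝ) • (v * x⁻¹ * b + b * x⁻¹ * v +
      x * fderiv ℝ E (x⁻¹ * b) (x⁻¹ * v))) y :=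
    (hm.add (hc'.const_mul x)).const_smul (-(1 / 2) : ℝ)
  apply fderiv_line h2
  have l := line_id y h
  have h3 := line_clm hd (l.const_mul x⁻¹) (by simp) (hasDerivAt_const (0 : ℝ) (x⁻¹ * v))
  have h4 := (((l.const_mul (v * x⁻¹)).add ((l.mul_const x⁻¹).mul_const v)).add
    (h3.const_mul x)).const_smul (-(1 / 2) : ℝ)
  refine h4.congr_deriv ?_
  simp

/-- mixed second derivative of the spray -/
lemma Data.nxy (D : Data F ℓ μ E) {x y : ℍ} (hx : x ≠ 0) (hy : y ≠ 0) (v : ℍ) :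
    fderiv ℝ (fun a => fderiv ℝ (fun c => H81Fi.spray F a c) y v) x y =
      (-(1 / 2) : ℝ) • (-(v * (x⁻¹ * y * x⁻¹) * y) - y * (x⁻¹ * y * x⁻¹) * v +
      (y * fderiv ℝ E (x⁻¹ * y) (x⁻¹ * v) -
        x * (fderiv ℝ (fderiv ℝ E) (x⁻¹ * y) (x⁻¹ * y * x⁻¹ * y) (x⁻¹ * v) +
          fderiv ℝ E (x⁻¹ * y) (x⁻¹ * y * x⁻¹ * v)))) := by
  have h1 : (fun a => fderiv ℝ (fun c => H81Fi.spray F a c) y v) =ᶠ[nhds x]
      fun a => (-(1 / 2) : ℝ) • (v * a⁻¹ * y + y * a⁻¹ * v +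
      a * fderiv ℝ E (a⁻¹ * y) (a⁻¹ * v)) := by
    filter_upwards [ev_ne hx] with a ha
    exact D.ny ha hy v
  rw [h1.fderiv_eq]
  have hd : DifferentiableAt ℝ (fderiv ℝ E) (x⁻¹ * y) := c2_fderiv (D.hE _ (ne_mul hx hy))
  have hi : ∀ c : ℍ, DifferentiableAt ℝ (fun a : ℍ => a⁻¹ * c) x := fun c =>
    (diff_inv hx).mul_const c
  have hc' : DifferentiableAt ℝ (fun a : ℍ => fderiv ℝ E (a⁻¹ * y) (a⁻¹ * v)) x :=
    diff_clm hd rfl (hi y) (hi v)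
  have hm : DifferentiableAt ℝ (fun a : ℍ => v * a⁻¹ * y + y * a⁻¹ * v) x :=
    (((diff_inv hx).const_mul v).mul_const y).add (((diff_inv hx).const_mul y).mul_const v)
  have h2 : DifferentiableAt ℝ (fun a : ℍ => (-(1 / 2) : ℝ) • (v * a⁻¹ * y + y * a⁻¹ * v +
      a * fderiv ℝ E (a⁻¹ * y) (a⁻¹ * v))) x :=
    (hm.add (differentiableAt_id.mul hc')).const_smul (-(1 / 2) : ℝ)
  apply fderiv_line h2
  have l := line_id x y
  have li := line_inv hx y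
  have h3 := line_clm hd (li.mul_const y) (by simp) (li.mul_const v)
  have h4 := ((((li.const_mul v).mul_const y).add ((li.const_mul y).mul_const v)).add
    (l.mul h3)).const_smul (-(1 / 2) : ℝ)
  refine h4.congr_deriv ?_
  simp only [zero_smul, add_zero, neg_mul, mul_neg, map_neg, neg_apply, mul_add]
  module

lemma Data.riem (D : Data F ℓ μ E) {x u : ℍ} (hx : x ≠ 0) (hu : u ≠ 0) (v : ℍ) :
    H81Fi.riem F x (x * u) (x * v) = x * curv E u v := by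
  have hy : x * u ≠ 0 := mul_ne_zero hx hu
  unfold H81Fi.riem curv
  rw [D.nx hx hy, D.nyy hx hy, D.nxy hx hy, D.ny hx hy, D.ny hx hy, D.spray hx hy]
  have e1 : ∀ w : ℍ, x⁻¹ * (x * w) = w := fun w => by
    rw [← mul_assoc, inv_mul_cancel₀ hx, one_mul]
  simp only [mul_assoc, e1, mul_add, add_mul, mul_sub, sub_mul, smul_mul_assoc, mul_smul_comm,
    map_add, map_sub, map_smul, add_apply, smul_apply]
  module

end Pool.Agent.H81Fi
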