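import Pool.Agent.Lib.H81.Fi.Metric

/-!
# The metric
-/

set_option autoImplicit false

open scoped ContDiff Quaternion RealInnerProductSpace

namespace Pool.Agent.H81Fi

/-- the imaginary unit `i` -/
noncomputable def e1 : ℍ := ⟨0, 1, 0, 0⟩

/-- the imaginary unit `j` -/
noncomputable def e2 : ℍ := ⟨0, 0, 1, 0⟩

noncomputable def Af (ε τ : ℝ) (w u : ℍ) : ℝ := 1 + ε * (⟪w, u⟫ * af τ u)

noncomputable def Sf (ε τ : ℝ) (w u : ℍ) : ℝ := -(ε * Pf τ u) / Af ε τ w u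

noncomputable def Bf (ε τ : ℝ) (w u : ℍ) : ℝ := ε * (⟪w, u⟫ * bf τ u)

/-- half of the square of the norm -/
noncomputable def lf (ε : ℝ) (u : ℍ) : ℝ :=
  1 / 2 * ‖u‖ ^ 2 + ε * (Pf 1 u * ⟪e1, u⟫ + Pf (-1) u * ⟪e2, u⟫)

/-- its gradient -/
noncomputable def mf (ε : ℝ) (u : ℍ) : ℍ := u + ε • (Kf 1 e1 u + Kf (-1) e2 u)

/-- the Euler-Poincare vector field -/
noncomputable def Ef (ε : ℝ) (u : ℍ) : ℍ := Sf ε 1 e1 u • br u e1 + Sf ε (-1) e2 u • br u e2

/-- the metric -/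
noncomputable def Ff (ε : ℝ) (x y : ℍ) : ℝ := √(2 * lf ε (x⁻¹ * y))

variable {τ : ℝ} {w u : ℍ}

noncomputable def Qf (τ : ℝ) (w u : ℍ) : ℝ := ⟪w, u⟫ * af τ u

lemma Qf_smooth (hu : u ≠ 0) : ContDiffAt ℝ ∞ (Qf τ w) u :=
  (contDiffAt_const.inner ℝ contDiffAt_id).mul (af_smooth hu)

lemma Qf_hom {c : ℝ} (hc : 0 < c) : Qf τ w (c • u) = Qf τ w u := by
  unfold Qf
  rw [af_hom hc, inner_smul_right]
  field_simp

lemma cont_fderiv {V : Type*} [NormedAddCommGroup V] [NormedSpace ℝ V] {f : ℍ → V}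
    (h : ContDiffAt ℝ ∞ f u) : ContinuousAt (fderiv ℝ f) u :=
  (h.fderiv_right (m := 0) (by norm_num)).continuousAt

/-- bounds -/
lemma bounds (τ : ℝ) (w : ℍ) : ∃ M, 0 ≤ M ∧ ∀ u : ℍ, u ≠ 0 → |Qf τ w u| ≤ M ∧
    ‖fderiv ℝ (Kf τ w) u‖ ≤ M ∧ ‖fderiv ℝ (Pf τ) u‖ ≤ M ∧ ‖Pf τ u • fderiv ℝ (Qf τ w) u‖ ≤ M ∧
    |Pf τ u| ≤ M * ‖u‖ := by
  obtain ⟨M1, h1⟩ := bounded_of_hom (Qf τ w) (fun u hu => (Qf_smooth hu).continuousAt)
    (fun u _ c hc => Qf_hom hc)
  obtain ⟨M2, h2⟩ := bounded_of_hom (fderiv ℝ (Kf τ w)) (fun u hu => cont_fderiv (Kf_smooth hu))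
    (fun u hu c hc => by
      have hcu : c • u ≠ 0 := smul_ne_zero hc.ne' hu
      have := fderiv_hom (c := c) (d := c) ((Kf_smooth (τ := τ) (w := w) hcu).differentiableAt
        (by norm_num)) ((Kf_smooth hu).differentiableAt (by norm_num))
        (Filter.Eventually.of_forall fun a => Kf_hom hc)
      exact smul_right_injective _ hc.ne' this)
  obtain ⟨M3, h3⟩ := bounded_of_hom (fderiv ℝ (Pf τ)) (fun u hu => cont_fderiv (Pf_smooth hu))
    (fun u hu c hc => by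
      have hcu : c • u ≠ 0 := smul_ne_zero hc.ne' hu
      have := fderiv_hom (c := c) (d := c) ((Pf_smooth (τ := τ) hcu).differentiableAt
        (by norm_num)) ((Pf_smooth hu).differentiableAt (by norm_num))
        (Filter.Eventually.of_forall fun a => Pf_hom hc)
      exact smul_right_injective _ hc.ne' this)
  obtain ⟨M4, h4⟩ := bounded_of_hom (fun u => Pf τ u • fderiv ℝ (Qf τ w) u)
    (fun u hu => (Pf_smooth hu).continuousAt.smul (cont_fderiv (Qf_smooth hu)))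
    (fun u hu c hc => by
      have hcu : c • u ≠ 0 := smul_ne_zero hc.ne' hu
      have := fderiv_hom (c := c) (d := 1) ((Qf_smooth (τ := τ) (w := w) hcu).differentiableAt
        (by norm_num)) ((Qf_smooth hu).differentiableAt (by norm_num))
        (Filter.Eventually.of_forall fun a => by rw [Qf_hom hc, one_smul])
      rw [one_smul] at this
      show Pf τ (c • u) • fderiv ℝ (Qf τ w) (c • u) = Pf τ u • fderiv ℝ (Qf τ w) u
      rw [Pf_hom hc, ← this, smul_smul, mul_comm])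
  obtain ⟨M5, h5⟩ := bounded_of_hom (fun u => Pf τ u / ‖u‖)
    (fun u hu => (Pf_smooth hu).continuousAt.div continuous_norm.continuousAt
      (norm_ne_zero_iff.2 hu))
    (fun u hu c hc => by
      show Pf τ (c • u) / ‖c • u‖ = _
      rw [Pf_hom hc, norm_smul, Real.norm_eq_abs, abs_of_pos hc, mul_div_mul_left _ _ hc.ne'])
  refine ⟨|M1| + |M2| + |M3| + |M4| + |M5|, by positivity, fun u hu => ⟨?_, ?_, ?_, ?_, ?_⟩⟩
  · have := h1 u hu
    rw [Real.norm_eq_abs] at this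
    have := le_abs_self M1
    have := abs_nonneg M2
    have := abs_nonneg M3
    have := abs_nonneg M4
    have := abs_nonneg M5
    linarith
  · have := h2 u hu
    have := le_abs_self M2
    have := abs_nonneg M1
    have := abs_nonneg M3
    have := abs_nonneg M4
    have := abs_nonneg M5
    linarith
  · have := h3 u hu
    have := le_abs_self M3
    have := abs_nonneg M1
    have := abs_nonneg M2
    have := abs_nonneg M4
    have := abs_nonneg M5
    linarith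
  · have := h4 u hu
    have := le_abs_self M4
    have := abs_nonneg M1
    have := abs_nonneg M2
    have := abs_nonneg M3
    have := abs_nonneg M5
    linarith
  · have h := h5 u hu
    rw [Real.norm_eq_abs, abs_div, abs_norm] at h
    have hn : 0 < ‖u‖ := norm_pos_iff.2 hu
    rw [div_le_iff₀ hn] at h
    refine h.trans (mul_le_mul_of_nonneg_right ?_ hn.le)
    have := le_abs_self M5
    have := abs_nonneg M1
    have := abs_nonneg M2
    have := abs_nonneg M3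
    have := abs_nonneg M4
    linarith

lemma Af_smooth {ε : ℝ} (hu : u ≠ 0) : ContDiffAt ℝ ∞ (Af ε τ w) u :=
  contDiffAt_const.add (contDiffAt_const.mul (Qf_smooth hu))

lemma Bf_smooth {ε : ℝ} (hu : u ≠ 0) : ContDiffAt ℝ ∞ (Bf ε τ w) u :=
  contDiffAt_const.mul ((contDiffAt_const.inner ℝ contDiffAt_id).mul (bf_smooth hu))

lemma Sf_smooth {ε : ℝ} (hu : u ≠ 0) (hA : Af ε τ w u ≠ 0) : ContDiffAt ℝ ∞ (Sf ε τ w) u :=
  (contDiffAt_const.mul (Pf_smooth hu)).neg.div (Af_smooth hu) hA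

lemma Sf_deriv {ε : ℝ} (hu : u ≠ 0) (hA : Af ε τ w u ≠ 0) (v : ℍ) :
    fderiv ℝ (Sf ε τ w) u v = (-(ε * fderiv ℝ (Pf τ) u v) * Af ε τ w u +
      ε * Pf τ u * (ε * fderiv ℝ (Qf τ w) u v)) / Af ε τ w u ^ 2 := by
  apply fderiv_line ((Sf_smooth hu hA).differentiableAt (by norm_num))
  have l := line_id u v
  have h1 := comp_line ((Pf_smooth (τ := τ) hu).differentiableAt (by norm_num)) l (by simp)
  have h2 := comp_line ((Qf_smooth (τ := τ) (w := w) hu).differentiableAt (by norm_num)) l (by simp)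
  have h3 := ((h1.const_mul ε).neg).div ((h2.const_mul ε).const_add 1)
    (by simpa [Qf, Af] using hA)
  refine h3.congr_deriv ?_
  simp only [zero_smul, add_zero, Pi.neg_apply]
  have e : 1 + ε * Qf τ w u = Af ε τ w u := rfl
  rw [e]
  ring

/-- the properties of the parameter which are used -/
structure Good (ε τ : ℝ) (w : ℍ) : Prop where
  A : ∀ u, u ≠ 0 → 1 / 2 ≤ Af ε τ w u
  K : ∀ u, u ≠ 0 → ∀ v, ‖ε • fderiv ℝ (Kf τ w) u v‖ ≤ 1 / 4 * ‖v‖
  S : ∀ u, u ≠ 0 → ‖fderiv ℝ (Sf ε τ w) u‖ ≤ 1 / 6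
  P : ∀ u, u ≠ 0 → |ε * Pf τ u| ≤ ‖u‖ / 8

lemma good_of_small (τ : ℝ) (w : ℍ) : ∃ δ > 0, ∀ ε, 0 < ε → ε ≤ δ → Good ε τ w := by
  obtain ⟨M, hM, h⟩ := bounds τ w
  refine ⟨1 / (100 * (M + 1)), by positivity, fun ε hε hδ => ?_⟩
  have hεM : ε * (M + 1) ≤ 1 / 100 := by
    rw [le_div_iff₀ (by positivity)] at hδ
    linarith
  have h1 : ε * M ≤ 1 / 100 := by nlinarith
  have h2 : ε ≤ 1 / 100 := by nlinarith
  have hQ : ∀ u : ℍ, u ≠ 0 → |ε * Qf τ w u| ≤ 1 / 100 := fun u hu => by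
    rw [abs_mul, abs_of_pos hε]
    exact (mul_le_mul_of_nonneg_left (h u hu).1 hε.le).trans h1
  have hA : ∀ u : ℍ, u ≠ 0 → 99 / 100 ≤ Af ε τ w u ∧ Af ε τ w u ≤ 101 / 100 := fun u hu => by
    have := abs_le.1 (hQ u hu)
    have e : Af ε τ w u = 1 + ε * Qf τ w u := rfl
    constructor <;> linarith [this.1, this.2]
  refine ⟨fun u hu => by linarith [(hA u hu).1], fun u hu v => ?_, fun u hu => ?_, fun u hu => ?_⟩
  · rw [norm_smul, Real.norm_eq_abs, abs_of_pos hε]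
    have b1 : ‖fderiv ℝ (Kf τ w) u v‖ ≤ M * ‖v‖ :=
      ((fderiv ℝ (Kf τ w) u).le_opNorm v).trans
        (mul_le_mul_of_nonneg_right (h u hu).2.1 (norm_nonneg _))
    have b2 := mul_le_mul_of_nonneg_left b1 hε.le
    have b3 : ε * M * ‖v‖ ≤ 1 / 100 * ‖v‖ := by gcongr
    have b4 := norm_nonneg v
    linarith
  · have hA1 := (hA u hu).1
    have hA2 := (hA u hu).2
    apply ContinuousLinearMap.opNorm_le_bound _ (by norm_num)
    intro v
    rw [Sf_deriv hu (by linarith)]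
    have b1 : |fderiv ℝ (Pf τ) u v| ≤ M * ‖v‖ := by
      have := (fderiv ℝ (Pf τ) u).le_opNorm v
      rw [Real.norm_eq_abs] at this
      exact this.trans (mul_le_mul_of_nonneg_right (h u hu).2.2.1 (norm_nonneg _))
    have b2 : |Pf τ u * fderiv ℝ (Qf τ w) u v| ≤ M * ‖v‖ := by
      have := (Pf τ u • fderiv ℝ (Qf τ w) u).le_opNorm v
      rw [Real.norm_eq_abs] at this
      exact this.trans (mul_le_mul_of_nonneg_right (h u hu).2.2.2.1 (norm_nonneg _))
    set a := Af ε τ w u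
    set p := fderiv ℝ (Pf τ) u v
    have e1 : -(ε * p) * a + ε * Pf τ u * (ε * fderiv ℝ (Qf τ w) u v) =
        ε * (-(p * a) + ε * (Pf τ u * fderiv ℝ (Qf τ w) u v)) := by ring
    rw [e1]
    set q := Pf τ u * fderiv ℝ (Qf τ w) u v
    rw [Real.norm_eq_abs, abs_div, abs_mul, abs_of_pos hε, abs_of_nonneg (sq_nonneg a),
      div_le_iff₀ (by positivity)]
    have c1 : |-(p * a) + ε * q| ≤ M * ‖v‖ * (101 / 100) + M * ‖v‖ := by
      refine (abs_add_le _ _).trans (add_le_add ?_ ?_)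
      · rw [abs_neg, abs_mul, abs_of_pos (show 0 < a by linarith)]
        exact mul_le_mul b1 hA2 (by linarith) (by positivity)
      · rw [abs_mul, abs_of_pos hε]
        have : ε * |q| ≤ 1 * (M * ‖v‖) := mul_le_mul (by linarith) b2 (abs_nonneg _) (by norm_num)
        linarith
    have c2 : ε * |-(p * a) + ε * q| ≤ ε * (M * ‖v‖ * (101 / 100) + M * ‖v‖) :=
      mul_le_mul_of_nonneg_left c1 hε.le
    have c3 : ε * (M * ‖v‖ * (101 / 100) + M * ‖v‖) = (ε * M) * ‖v‖ * (201 / 100) := by ring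
    have c4 : (ε * M) * ‖v‖ * (201 / 100) ≤ 1 / 100 * ‖v‖ * (201 / 100) := by
      gcongr
    have c5 : (99 / 100) ^ 2 ≤ a ^ 2 := pow_le_pow_left₀ (by norm_num) hA1 2
    have c6 : 1 / 6 * ‖v‖ * ((99 / 100) ^ 2) ≤ 1 / 6 * ‖v‖ * a ^ 2 := by gcongr
    have c7 := norm_nonneg v
    linarith
  · rw [abs_mul, abs_of_pos hε]
    have := mul_le_mul_of_nonneg_left (h u hu).2.2.2.2 hε.le
    have h3 : ε * (M * ‖u‖) = ε * M * ‖u‖ := by ring
    have h4 : ε * M * ‖u‖ ≤ 1 / 100 * ‖u‖ := by gcongr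
    have := norm_nonneg u
    linarith

end Pool.Agent.H81Fi
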