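import Pool.Agent.Lib.H81.Fi.Main

/-!
# The metric, continued
-/

set_option autoImplicit false

open scoped ContDiff Quaternion RealInnerProductSpace

namespace Pool.Agent.H81Fi

variable {ε τ : ℝ} {w u : ℍ}

lemma norm_e1 : ‖e1‖ = 1 := by
  have h : ‖e1‖ * ‖e1‖ = 1 := by
    rw [← Quaternion.normSq_eq_norm_mul_self, Quaternion.normSq_def']
    simp [e1]
  nlinarith [norm_nonneg e1]

lemma norm_e2 : ‖e2‖ = 1 := by
  have h : ‖e2‖ * ‖e2‖ = 1 := by
    rw [← Quaternion.normSq_eq_norm_mul_self, Quaternion.normSq_def']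
    simp [e2]
  nlinarith [norm_nonneg e2]

lemma smooth_diff {V : Type*} [NormedAddCommGroup V] [NormedSpace ℝ V] {f : ℍ → V}
    (h : ContDiffAt ℝ ∞ f u) : DifferentiableAt ℝ f u := h.differentiableAt (by norm_num)

lemma kill1 (a w : ℍ) : ⟪(1 : ℍ), br a w⟫ = 0 := by rw [real_inner_comm, inner_br_one]

lemma kill2 (a w : ℍ) : ⟪a, br a w⟫ = 0 := by rw [real_inner_comm, inner_br_self]

lemma kill3 (a w : ℍ) : ⟪w, br a w⟫ = 0 := by rw [real_inner_comm, inner_br_right]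

/-- the gradient of one of the two terms -/
lemma term_deriv (hu : u ≠ 0) (v : ℍ) :
    fderiv ℝ (fun a => Pf τ a * ⟪w, a⟫) u v = ⟪Kf τ w u, v⟫ := by
  have d1 : DifferentiableAt ℝ (Pf τ) u := smooth_diff (Pf_smooth hu)
  apply fderiv_line (d1.mul ((differentiableAt_const w).inner ℝ differentiableAt_id))
  have l := line_id u v
  have h1 := (comp_line d1 l (by simp)).mul ((hasDerivAt_const (0 : ℝ) w).inner ℝ l)
  refine h1.congr_deriv ?_
  rw [Pf_deriv hu]
  unfold Kf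
  simp only [zero_smul, add_zero, inner_add_left, inner_smul_left, conj_trivial, inner_zero_left]
  ring

lemma lf_deriv (hu : u ≠ 0) : HasFDerivAt (lf ε) (innerSL ℝ (mf ε u)) u := by
  have d0 : DifferentiableAt ℝ (fun a : ℍ => ‖a‖ ^ 2) u := differentiableAt_id.norm_sq ℝ
  have dt : ∀ (τ : ℝ) (w : ℍ), DifferentiableAt ℝ (fun a => Pf τ a * ⟪w, a⟫) u := fun τ w =>
    (smooth_diff (Pf_smooth hu)).mul ((differentiableAt_const w).inner ℝ differentiableAt_id)
  have d : DifferentiableAt ℝ (lf ε) u :=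
    (d0.const_mul (1 / 2)).add (((dt 1 e1).add (dt (-1) e2)).const_mul ε)
  refine d.hasFDerivAt.congr_fderiv ?_
  ext v
  apply fderiv_line d
  have l := line_id u v
  have h1 : HasDerivAt (fun t : ℝ => ‖u + t • v‖ ^ 2) (2 * ⟪u, v⟫) 0 := by
    refine l.norm_sq.congr_deriv ?_
    simp
  have h2 := comp_line (dt 1 e1) l (by simp)
  have h3 := comp_line (dt (-1) e2) l (by simp)
  refine ((h1.const_mul (1 / 2)).add ((h2.add h3).const_mul ε)).congr_deriv ?_
  rw [term_deriv hu, term_deriv hu]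
  unfold mf
  simp only [innerSL_apply_apply, inner_add_left, inner_smul_left, conj_trivial]
  ring

lemma mf_smooth (hu : u ≠ 0) : ContDiffAt ℝ ∞ (mf ε) u :=
  contDiffAt_id.add (((Kf_smooth hu).add (Kf_smooth hu)).const_smul ε)

lemma br_smooth : ContDiffAt ℝ ∞ (fun a => br a w) u := by
  unfold br
  exact (contDiffAt_id.mul contDiffAt_const).sub (contDiffAt_const.mul contDiffAt_id)

lemma part_smooth (hu : u ≠ 0) (G : Good ε τ w) :
    ContDiffAt ℝ ∞ (fun a => Sf ε τ w a • br a w) u :=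
  (Sf_smooth hu (by linarith [G.A u hu])).smul br_smooth

lemma Ef_smooth (hu : u ≠ 0) (G1 : Good ε 1 e1) (G2 : Good ε (-1) e2) : ContDiffAt ℝ ∞ (Ef ε) u :=
  (part_smooth hu G1).add (part_smooth hu G2)

lemma mf_deriv (hu : u ≠ 0) (v : ℍ) :
    fderiv ℝ (mf ε) u v = v + (ε • fderiv ℝ (Kf 1 e1) u v + ε • fderiv ℝ (Kf (-1) e2) u v) := by
  apply fderiv_line (smooth_diff (mf_smooth hu))
  have l := line_id u v
  have h1 := comp_line (smooth_diff (Kf_smooth (τ := 1) (w := e1) hu)) l (by simp)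
  have h2 := comp_line (smooth_diff (Kf_smooth (τ := -1) (w := e2) hu)) l (by simp)
  refine (l.add ((h1.add h2).const_smul ε)).congr_deriv ?_
  rw [smul_add]

lemma mf_conv (hu : u ≠ 0) (G1 : Good ε 1 e1) (G2 : Good ε (-1) e2) {v : ℍ} (hv : v ≠ 0) :
    0 < ⟪fderiv ℝ (mf ε) u v, v⟫ := by
  rw [mf_deriv hu, inner_add_left, inner_add_left, real_inner_self_eq_norm_sq]
  have hn : 0 < ‖v‖ := norm_pos_iff.2 hv
  have key : ∀ a : ℍ, ‖a‖ ≤ 1 / 4 * ‖v‖ → -(1 / 4 * ‖v‖ * ‖v‖) ≤ ⟪a, v⟫ := fun a ha => by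
    have h1 := (abs_le.1 (abs_real_inner_le_norm a v)).1
    have h2 : ‖a‖ * ‖v‖ ≤ 1 / 4 * ‖v‖ * ‖v‖ := by gcongr
    linarith
  have h1 := key _ (G1.K u hu v)
  have h2 := key _ (G2.K u hu v)
  nlinarith

lemma half_of (hw : ‖w‖ = 1) (G : Good ε τ w) (hu : u ≠ 0)
    (hμ : ∀ᶠ a in nhds u, mf ε a = a + ε • Kf τ w a)
    (hE : ∀ᶠ a in nhds u, Ef ε a = Sf ε τ w a • br a w) :
    Half (mf ε) (Ef ε) w (Af ε τ w) (Sf ε τ w) (Bf ε τ w) u where
  hw := hw
  hμ := by
    filter_upwards [hμ, ev_ne hu] with a ha hne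
    have hA : Af ε τ w a ≠ 0 := by linarith [G.A a hne] 
    have h1 : Af ε τ w a * Sf ε τ w a = -(ε * Pf τ a) := by
      unfold Sf; field_simp
    rw [ha, smul_sub, smul_smul, h1]
    unfold Af Bf Kf
    module
  hE := hE
  hs := (Sf_smooth hu (by linarith [G.A u hu])).of_le (by norm_cast)
  hA := smooth_diff (Af_smooth hu)
  hb := smooth_diff (Bf_smooth hu)
  ks := by
    filter_upwards [ev_ne hu] with a hne
    have hQ : fderiv ℝ (Qf τ w) a (br a w) = 0 := by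
      apply fderiv_line (smooth_diff (Qf_smooth hne))
      have l := line_id a (br a w)
      have h1 := comp_line (smooth_diff (af_smooth (τ := τ) hne)) l (by simp)
      refine (((hasDerivAt_const (0 : ℝ) w).inner ℝ l).mul h1).congr_deriv ?_
      rw [af_kill hne (kill1 _ _) (kill2 _ _), kill3]
      simp
    rw [Sf_deriv hne (by linarith [G.A a hne]), Pf_kill hne (kill1 _ _) (kill2 _ _), hQ]
    simp
  kA := by
    apply fderiv_line (smooth_diff (Af_smooth hu))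
    have l := line_id u (br u w)
    have h1 := comp_line (smooth_diff (af_smooth (τ := τ) hu)) l (by simp)
    refine (((((hasDerivAt_const (0 : ℝ) w).inner ℝ l).mul h1).const_mul ε).const_add
      1).congr_deriv ?_
    rw [af_kill hu (kill1 _ _) (kill2 _ _), kill3]
    simp
  kb := by
    apply fderiv_line (smooth_diff (Bf_smooth hu))
    have l := line_id u (br u w)
    have h1 := comp_line (smooth_diff (bf_smooth (τ := τ) hu)) l (by simp)
    refine ((((hasDerivAt_const (0 : ℝ) w).inner ℝ l).mul h1).const_mul ε).congr_deriv ?_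
    rw [bf_kill hu (kill1 _ _) (kill2 _ _), kill3]
    simp

lemma Sf_zero (h : τ * ⟪(1 : ℍ), u⟫ ≤ 0) : Sf ε τ w u = 0 := by
  unfold Sf; rw [Pf_zero h]; simp

lemma half1 (G : Good ε 1 e1) (hu : 0 < ⟪(1 : ℍ), u⟫) :
    Half (mf ε) (Ef ε) e1 (Af ε 1 e1) (Sf ε 1 e1) (Bf ε 1 e1) u := by
  have hne : u ≠ 0 := by rintro rfl; simp at hu
  have hc : ContinuousAt (fun a : ℍ => ⟪(1 : ℍ), a⟫) u :=
    (continuous_const.inner continuous_id).continuousAt
  have hev : ∀ᶠ a in nhds u, 0 < ⟪(1 : ℍ), a⟫ := hc.eventually (lt_mem_nhds hu)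
  refine half_of norm_e1 G hne ?_ ?_
  · filter_upwards [hev] with a ha
    unfold mf
    rw [Kf_zero (τ := -1) (by linarith), add_zero]
  · filter_upwards [hev] with a ha
    unfold Ef
    rw [Sf_zero (τ := -1) (by linarith), zero_smul, add_zero]

lemma half2 (G : Good ε (-1) e2) (hu : ⟪(1 : ℍ), u⟫ < 0) :
    Half (mf ε) (Ef ε) e2 (Af ε (-1) e2) (Sf ε (-1) e2) (Bf ε (-1) e2) u := by
  have hne : u ≠ 0 := by rintro rfl; simp at hu
  have hc : ContinuousAt (fun a : ℍ => ⟪(1 : ℍ), a⟫) u :=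
    (continuous_const.inner continuous_id).continuousAt
  have hev : ∀ᶠ a in nhds u, ⟪(1 : ℍ), a⟫ < 0 := hc.eventually (gt_mem_nhds hu)
  refine half_of norm_e2 G hne ?_ ?_
  · filter_upwards [hev] with a ha
    unfold mf
    rw [Kf_zero (τ := 1) (by linarith), zero_add]
  · filter_upwards [hev] with a ha
    unfold Ef
    rw [Sf_zero (τ := 1) (by linarith), zero_smul, zero_add]

/-- the derivative at the boundary of a half space on which a function vanishes -/
lemma fderiv_zero_half {V : Type*} [NormedAddCommGroup V] [NormedSpace ℝ V] {f : ℍ → V}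
    (hd : DifferentiableAt ℝ f u) (hz : ∀ a, τ * ⟪(1 : ℍ), a⟫ ≤ 0 → f a = 0)
    (hu : ⟪(1 : ℍ), u⟫ = 0) (v : ℍ) : fderiv ℝ f u v = 0 := by
  have key : ∀ v : ℍ, τ * ⟪(1 : ℍ), v⟫ ≤ 0 → fderiv ℝ f u v = 0 := fun v hv => by
    have h1 := comp_line hd (line_id u v) (by simp)
    have h2 : HasDerivWithinAt (fun t : ℝ => f (u + t • v)) 0 (Set.Ici 0) 0 := by
      have h3 : HasDerivWithinAt (fun _ : ℝ => (0 : V)) 0 (Set.Ici 0) 0 :=
        hasDerivWithinAt_const _ _ _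
      have h4 : ∀ t ∈ Set.Ici (0 : ℝ), f (u + t • v) = 0 := fun t ht => by
        apply hz
        rw [inner_add_right, inner_smul_right, hu, zero_add, mul_left_comm]
        exact mul_nonpos_of_nonneg_of_nonpos ht hv
      exact h3.congr h4 (h4 0 Set.self_mem_Ici)
    exact (uniqueDiffWithinAt_Ici (0 : ℝ)).eq_deriv _ h1.hasDerivWithinAt h2
  rcases le_total (τ * ⟪(1 : ℍ), v⟫) 0 with h | h
  · exact key v h
  · have := key (-v) (by rw [inner_neg_right]; linarith)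
    rwa [map_neg, neg_eq_zero] at this

lemma mf_zero (hu : u ≠ 0) (h0 : ⟪(1 : ℍ), u⟫ = 0) (v : ℍ) : fderiv ℝ (mf ε) u v = v := by
  rw [mf_deriv hu, fderiv_zero_half (smooth_diff (Kf_smooth hu)) (fun a ha => Kf_zero ha) h0,
    fderiv_zero_half (smooth_diff (Kf_smooth hu)) (fun a ha => Kf_zero ha) h0]
  simp

lemma Ef_zero (h0 : ⟪(1 : ℍ), u⟫ = 0) : Ef ε u = 0 := by
  unfold Ef
  rw [Sf_zero (by rw [h0, mul_zero]), Sf_zero (by rw [h0, mul_zero])]
  simp

lemma Ef_deriv_zero (hu : u ≠ 0) (G1 : Good ε 1 e1) (G2 : Good ε (-1) e2)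
    (h0 : ⟪(1 : ℍ), u⟫ = 0) (v : ℍ) : fderiv ℝ (Ef ε) u v = 0 := by
  have d1 := smooth_diff (part_smooth hu G1)
  have d2 := smooth_diff (part_smooth hu G2)
  apply fderiv_line (smooth_diff (Ef_smooth hu G1 G2))
  have l := line_id u v
  refine ((comp_line d1 l (by simp)).add (comp_line d2 l (by simp))).congr_deriv ?_
  rw [fderiv_zero_half d1 (fun a ha => by rw [Sf_zero ha, zero_smul]) h0,
    fderiv_zero_half d2 (fun a ha => by rw [Sf_zero ha, zero_smul]) h0, add_zero]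

lemma lf_pos (hu : u ≠ 0) (G1 : Good ε 1 e1) (G2 : Good ε (-1) e2) : 0 < lf ε u := by
  have hn : 0 < ‖u‖ := norm_pos_iff.2 hu
  have key : ∀ (p : ℝ) (e : ℍ), ‖e‖ = 1 → |p| ≤ ‖u‖ / 8 → -(‖u‖ ^ 2 / 8) ≤ p * ⟪e, u⟫ :=
      fun p e he hp => by
    have h1 : |⟪e, u⟫| ≤ ‖u‖ := by
      have := abs_real_inner_le_norm e u
      rwa [he, one_mul] at this
    have h2 : |p * ⟪e, u⟫| ≤ ‖u‖ / 8 * ‖u‖ := by
      rw [abs_mul]
      exact mul_le_mul hp h1 (abs_nonneg _) (by positivity)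
    have h3 := (abs_le.1 h2).1
    linarith
  have h1 := key _ e1 norm_e1 (G1.P u hu)
  have h2 := key _ e2 norm_e2 (G2.P u hu)
  unfold lf
  nlinarith

end Pool.Agent.H81Fi
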