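import Pool.Agent.Lib.H81.Fi.Main2

/-!
# Flag curvatures of the metric
-/

set_option autoImplicit false

open scoped ContDiff Quaternion RealInnerProductSpace

namespace Pool.Agent.H81Fi

section general

variable {F : ℍ → ℍ → ℝ} {ℓ : ℍ → ℝ} {μ E : ℍ → ℍ} {u : ℍ}

lemma Data.symm (D : Data F ℓ μ E) (hu : u ≠ 0) (a b : ℍ) :
    ⟪fderiv ℝ μ u a, b⟫ = ⟪fderiv ℝ μ u b, a⟫ := by
  have h1 : ∀ᶠ y in nhds u, HasFDerivAt ℓ (innerSL ℝ (μ y)) y := by
    filter_upwards [ev_ne hu] with y hy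
    exact D.hℓ y hy
  have h2 : HasFDerivAt μ (fderiv ℝ μ u) u :=
    ((D.hμ u hu).differentiableAt (by norm_num)).hasFDerivAt
  have h3 : HasFDerivAt (fun y => innerSL ℝ (μ y)) ((innerSL ℝ).comp (fderiv ℝ μ u)) u :=
    (innerSL ℝ).hasFDerivAt.comp u h2
  have := second_derivative_symmetric_of_eventually h1 h3 a b
  simpa using this

/-- the denominator of the flag curvature is positive -/
lemma Data.den (D : Data F ℓ μ E) (hu : u ≠ 0) {v : ℍ} (h : LinearIndependent ℝ ![u, v]) :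
    0 < ⟪fderiv ℝ μ u u, u⟫ * ⟪fderiv ℝ μ u v, v⟫ - ⟪fderiv ℝ μ u v, u⟫ ^ 2 := by
  have ha := D.conv u hu u hu
  set a := ⟪fderiv ℝ μ u u, u⟫
  set b := ⟪fderiv ℝ μ u v, u⟫ with hb
  set c := ⟪fderiv ℝ μ u v, v⟫ with hc
  have hne : a • v - b • u ≠ 0 := by
    intro h0
    rw [LinearIndependent.pair_iff] at h
    have := h (-b) a (by rw [← h0, neg_smul]; abel)
    exact ha.ne' this.2
  have hs : ⟪fderiv ℝ μ u u, v⟫ = b := D.symm hu u v
  have h1 := D.conv u hu _ hne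
  have h2 : ⟪fderiv ℝ μ u (a • v - b • u), a • v - b • u⟫ = a * (a * c - b ^ 2) := by
    rw [map_sub, map_smul, map_smul, inner_sub_left, inner_sub_right, inner_sub_right]
    simp only [inner_smul_left, inner_smul_right, conj_trivial, hs]
    show a * (a * c) - b * (a * b) - (a * (b * b) - b * (b * a)) = _
    ring
  rw [h2] at h1
  exact pos_of_mul_pos_right h1 ha.le

lemma Data.flag (D : Data F ℓ μ E) {x : ℍ} (hx : x ≠ 0) (hu : u ≠ 0) (v : ℍ) :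
    flagCurv F x (x * u) (x * v) = ⟪fderiv ℝ μ u v, curv E u v⟫ /
      (⟪fderiv ℝ μ u u, u⟫ * ⟪fderiv ℝ μ u v, v⟫ - ⟪fderiv ℝ μ u v, u⟫ ^ 2) := by
  have hy : x * u ≠ 0 := mul_ne_zero hx hu
  have e1 : ∀ w : ℍ, x⁻¹ * (x * w) = w := fun w => by
    rw [← mul_assoc, inv_mul_cancel₀ hx, one_mul]
  unfold flagCurv
  rw [D.riem hx hu, D.fund hx hy, D.fund hx hy, D.fund hx hy, D.fund hx hy]
  simp only [e1]

end general

variable {ε τ : ℝ} {w u : ℍ}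

lemma lf_zero : lf ε 0 = 0 := by
  unfold lf
  simp

lemma data (G1 : Good ε 1 e1) (G2 : Good ε (-1) e2) : Data (Ff ε) (lf ε) (mf ε) (Ef ε) where
  hF x hx y := by
    unfold Ff
    apply Real.sq_sqrt
    by_cases h : x⁻¹ * y = 0
    · rw [h, lf_zero, mul_zero]
    · exact (mul_pos two_pos (lf_pos h G1 G2)).le
  hℓ u hu := lf_deriv hu
  hμ u hu := (mf_smooth hu).of_le (by norm_cast)
  hE u hu := (Ef_smooth hu G1 G2).of_le (by norm_cast)
  conv u hu v hv := mf_conv hu G1 G2 hv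
  ep u hu v := by
    rcases lt_trichotomy (⟪(1 : ℍ), u⟫) 0 with h | h | h
    · exact (half2 G2 h).ep v
    · rw [Ef_zero h, map_zero, inner_zero_left]
      unfold mf
      rw [Kf_zero (by rw [h, mul_zero]), Kf_zero (by rw [h, mul_zero])]
      have := kill2 u v
      unfold br at this
      simp [this]
    · exact (half1 G1 h).ep v

lemma curv_zero (hu : u ≠ 0) (G1 : Good ε 1 e1) (G2 : Good ε (-1) e2) (h0 : ⟪(1 : ℍ), u⟫ = 0)
    (v : ℍ) : ⟪fderiv ℝ (mf ε) u v, curv (Ef ε) u v⟫ = 1 / 4 * ‖br u v‖ ^ 2 := by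
  rw [mf_zero hu h0]
  have h1 : curv (Ef ε) u v = (-(1 / 4) : ℝ) • br u (br u v) := by
    unfold curv br
    rw [Ef_zero h0]
    simp only [Ef_deriv_zero hu G1 G2 h0, map_zero, zero_apply, zero_mul, mul_zero]
    module
  rw [h1, inner_smul_right, real_inner_comm, inner_br, real_inner_self_eq_norm_sq]
  ring

lemma one_pos_lower (G1 : Good ε 1 e1) (G2 : Good ε (-1) e2) (h : 0 < ⟪(1 : ℍ), u⟫) (v : ℍ) :
    Af ε 1 e1 u / 4 * ((1 - 3 * (1 / 6)) * ‖qv e1 (Sf ε 1 e1) u v‖ ^ 2) ≤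
      ⟪fderiv ℝ (mf ε) u v, curv (Ef ε) u v⟫ := by
  have hne : u ≠ 0 := by rintro rfl; simp at h
  exact (half1 G1 h).lower ((Ef_smooth hne G1 G2).of_le (by norm_cast))
    (by linarith [G1.A u hne]) (G1.S u hne) v

lemma one_neg_lower (G1 : Good ε 1 e1) (G2 : Good ε (-1) e2) (h : ⟪(1 : ℍ), u⟫ < 0) (v : ℍ) :
    Af ε (-1) e2 u / 4 * ((1 - 3 * (1 / 6)) * ‖qv e2 (Sf ε (-1) e2) u v‖ ^ 2) ≤
      ⟪fderiv ℝ (mf ε) u v, curv (Ef ε) u v⟫ := by
  have hne : u ≠ 0 := by rintro rfl; simp at h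
  exact (half2 G2 h).lower ((Ef_smooth hne G1 G2).of_le (by norm_cast))
    (by linarith [G2.A u hne]) (G2.S u hne) v

lemma curv_nonneg (hu : u ≠ 0) (G1 : Good ε 1 e1) (G2 : Good ε (-1) e2) (v : ℍ) :
    0 ≤ ⟪fderiv ℝ (mf ε) u v, curv (Ef ε) u v⟫ := by
  rcases lt_trichotomy (⟪(1 : ℍ), u⟫) 0 with h | h | h
  · refine le_trans ?_ (one_neg_lower G1 G2 h v)
    have := G2.A u hu
    have : 0 ≤ Af ε (-1) e2 u := by linarith
    positivity
  · rw [curv_zero hu G1 G2 h]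
    positivity
  · refine le_trans ?_ (one_pos_lower G1 G2 h v)
    have := G1.A u hu
    have : 0 ≤ Af ε 1 e1 u := by linarith
    positivity

/-- the derivative of `Sf` in the direction of the unit does not vanish at `τ` -/
lemma Sf_ne (hε : 0 < ε) (hτ : τ * τ = 1) (G : Good ε τ w) :
    fderiv ℝ (Sf ε τ w) (τ • (1 : ℍ)) 1 ≠ 0 := by
  have hτ0 : τ ≠ 0 := by rintro rfl; simp at hτ
  have hne : τ • (1 : ℍ) ≠ 0 := smul_ne_zero hτ0 one_ne_zero
  have hn : ‖τ • (1 : ℍ)‖ = 1 := by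
    rw [norm_smul, norm_one, mul_one, Real.norm_eq_abs]
    rcases mul_self_eq_one_iff.1 hτ with h | h <;> rw [h] <;> simp
  have h11 : ⟪(1 : ℍ), (1 : ℍ)⟫ = 1 := by rw [real_inner_self_eq_norm_sq, norm_one, one_pow]
  have hP : Pf τ (τ • (1 : ℍ)) = g0 1 := by
    unfold Pf tt
    rw [hn, inner_smul_right, h11, mul_one, div_one, one_mul, hτ]
  have hA : 0 < Af ε τ w (τ • (1 : ℍ)) := by linarith [G.A _ hne]
  have hg : 0 < g0 1 := expNegInvGlue.pos_of_pos one_pos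
  have hS : Sf ε τ w (τ • (1 : ℍ)) ≠ 0 := by
    unfold Sf
    rw [hP]
    exact div_ne_zero (neg_ne_zero.2 (mul_pos hε hg).ne') hA.ne'
  have hd : DifferentiableAt ℝ (Sf ε τ w) (τ • (1 : ℍ)) := smooth_diff (Sf_smooth hne hA.ne')
  have hE : fderiv ℝ (Sf ε τ w) (τ • (1 : ℍ)) (τ • (1 : ℍ)) = Sf ε τ w (τ • (1 : ℍ)) := by
    have l := line_id (τ • (1 : ℍ)) (τ • (1 : ℍ))
    have h1 := comp_line hd l (by simp)
    have h2 : HasDerivAt (fun t : ℝ => (1 + t) * Sf ε τ w (τ • (1 : ℍ)))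
        (Sf ε τ w (τ • (1 : ℍ))) 0 := by
      refine (((hasDerivAt_id (0 : ℝ)).const_add 1).mul_const _).congr_deriv ?_
      rw [one_mul]
    have h3 : (fun t : ℝ => Sf ε τ w (τ • (1 : ℍ) + t • (τ • (1 : ℍ)))) =ᶠ[nhds 0]
        fun t : ℝ => (1 + t) * Sf ε τ w (τ • (1 : ℍ)) := by
      filter_upwards [lt_mem_nhds (show (-1 : ℝ) < 0 by norm_num)] with t ht
      have hc : 0 < 1 + t := by linarith
      have e : τ • (1 : ℍ) + t • (τ • (1 : ℍ)) = (1 + t) • (τ • (1 : ℍ)) := by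
        rw [add_smul, one_smul]
      rw [e]
      unfold Sf
      have hA' : Af ε τ w ((1 + t) • τ • (1 : ℍ)) = Af ε τ w (τ • (1 : ℍ)) := by
        have := Qf_hom (τ := τ) (w := w) (u := τ • (1 : ℍ)) hc
        unfold Qf at this
        unfold Af
        rw [this]
      rw [hA', Pf_hom hc]
      ring
    exact (h1.congr_of_eventuallyEq h3.symm).unique h2
  intro h0
  rw [map_smul, h0, smul_zero] at hE
  exact hS hE.symm

lemma qv_one (s : ℝ) (e : ℍ) (S : ℍ → ℝ) (t : ℝ) :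
    qv w S (s • (1 : ℍ) + t • e) 1 =
      (-(fderiv ℝ S (s • (1 : ℍ) + t • e) 1) * t) • br e w := by
  unfold qv
  have h1 : br (1 : ℍ) w = 0 := by simp [br]
  rw [br_sub_right, br_one, zero_sub, br_smul_right, br_sub_left, br_smul_left _ w, br_self,
    smul_zero, sub_zero, br_add_left, br_smul_left, br_smul_left, h1, smul_zero, zero_add,
    smul_smul, neg_mul, neg_smul]

/-- there is a small `t` such that the derivative of `Sf` does not vanish -/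
lemma exists_t (hε : 0 < ε) (hτ : τ * τ = 1) (G : Good ε τ w) (e : ℍ) :
    ∃ t : ℝ, t ≠ 0 ∧ fderiv ℝ (Sf ε τ w) (τ • (1 : ℍ) + t • e) 1 ≠ 0 := by
  have hτ0 : τ ≠ 0 := by rintro rfl; simp at hτ
  have hne : τ • (1 : ℍ) ≠ 0 := smul_ne_zero hτ0 one_ne_zero
  have hA : Af ε τ w (τ • (1 : ℍ)) ≠ 0 := by linarith [G.A _ hne]
  have h1 : ContinuousAt (fderiv ℝ (Sf ε τ w)) (τ • (1 : ℍ)) := cont_fderiv (Sf_smooth hne hA)
  have h2 : ContinuousAt (fun a => fderiv ℝ (Sf ε τ w) a 1) (τ • (1 : ℍ)) :=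
    h1.clm_apply continuousAt_const
  have h3 : ContinuousAt (fun t : ℝ => τ • (1 : ℍ) + t • e) 0 := by fun_prop
  have h4 : ContinuousAt (fun t : ℝ => fderiv ℝ (Sf ε τ w) (τ • (1 : ℍ) + t • e) 1) 0 :=
    ContinuousAt.comp_of_eq h2 h3 (by simp)
  have h5 : ∀ᶠ t : ℝ in nhds 0, fderiv ℝ (Sf ε τ w) (τ • (1 : ℍ) + t • e) 1 ≠ 0 :=
    h4.eventually_ne (by simpa using Sf_ne hε hτ G)
  have h6 : ∀ᶠ t : ℝ in nhdsWithin 0 {0}ᶜ, t ≠ 0 := eventually_mem_nhdsWithin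
  obtain ⟨t, ht1, ht2⟩ := (h6.and (h5.filter_mono nhdsWithin_le_nhds)).exists
  exact ⟨t, ht1, ht2⟩

end Pool.Agent.H81Fi
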