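import Pool.Agent.Lib.H81.Fi.Main3

/-!
# Conclusion
-/

set_option autoImplicit false

open scoped ContDiff Quaternion RealInnerProductSpace

namespace Pool.Agent.H81Fi

variable {ε τ : ℝ} {w u : ℍ}

lemma lf_smooth (hu : u ≠ 0) : ContDiffAt ℝ ∞ (lf ε) u := by
  have h1 : ContDiffAt ℝ ∞ (fun a : ℍ => ‖a‖ ^ 2) u := contDiffAt_id.norm_sq ℝ
  have h2 : ∀ (τ : ℝ) (w : ℍ), ContDiffAt ℝ ∞ (fun a => Pf τ a * ⟪w, a⟫) u := fun τ w =>
    (Pf_smooth hu).mul (contDiffAt_const.inner ℝ contDiffAt_id)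
  exact (contDiffAt_const.mul h1).add (contDiffAt_const.mul ((h2 1 e1).add (h2 (-1) e2)))

lemma inv_smooth {x : ℍ} (hx : x ≠ 0) : ContDiffAt ℝ ∞ (fun a : ℍ => a⁻¹) x := by
  have h := contDiffAt_ringInverse ℝ (n := ∞) (Units.mk0 x hx)
  rw [Ring.inverse_eq_inv'] at h
  exact h

lemma lf_hom {c : ℝ} (hc : 0 < c) : lf ε (c • u) = c ^ 2 * lf ε u := by
  unfold lf
  rw [Pf_hom hc, Pf_hom hc, norm_smul, Real.norm_eq_abs, abs_of_pos hc, inner_smul_right,
    inner_smul_right]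
  ring

lemma isFinsler (G1 : Good ε 1 e1) (G2 : Good ε (-1) e2) : IsFinsler {x : ℍ | x ≠ 0} (Ff ε) where
  isOpen := isOpen_ne
  smooth := by
    rintro ⟨x, y⟩ ⟨hx, hy⟩
    have hx' : x ≠ 0 := hx
    have hy' : y ≠ 0 := hy
    have hne : x⁻¹ * y ≠ 0 := ne_mul hx' hy'
    apply ContDiffAt.contDiffWithinAt
    have h1 : ContDiffAt ℝ ∞ (fun p : ℍ × ℍ => p.1⁻¹ * p.2) (x, y) :=
      ((inv_smooth hx').comp (x, y) contDiffAt_fst).mul contDiffAt_snd
    have h2 : ContDiffAt ℝ ∞ (fun p : ℍ × ℍ => 2 * lf ε (p.1⁻¹ * p.2)) (x, y) :=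
      contDiffAt_const.mul (ContDiffAt.comp (g := lf ε) (x, y) (lf_smooth hne) h1)
    exact h2.sqrt (mul_pos two_pos (lf_pos hne G1 G2)).ne'
  pos x hx y hy := Real.sqrt_pos.2 (mul_pos two_pos (lf_pos (ne_mul hx hy) G1 G2))
  homog x hx y c hc := by
    unfold Ff
    rcases hc.eq_or_lt with h | h
    · rw [← h, zero_smul, mul_zero, lf_zero, mul_zero, Real.sqrt_zero, zero_mul]
    · rw [mul_smul_comm, lf_hom h, mul_left_comm, Real.sqrt_mul (sq_nonneg c), Real.sqrt_sq hc]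
  convex x hx y hy v hv := by
    rw [(data G1 G2).fund hx hy]
    exact mf_conv (ne_mul hx hy) G1 G2 (ne_mul hx hv)

lemma nonnegCurved (G1 : Good ε 1 e1) (G2 : Good ε (-1) e2) :
    NonnegCurved {x : ℍ | x ≠ 0} (Ff ε) := by
  intro x hx y v h
  have hx' : x ≠ 0 := hx
  have hy : y ≠ 0 := by
    have := h.ne_zero 0
    simpa using this
  have hu : x⁻¹ * y ≠ 0 := ne_mul hx' hy
  have e : ∀ w : ℍ, w = x * (x⁻¹ * w) := fun w => by
    rw [← mul_assoc, mul_inv_cancel₀ hx', one_mul]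
  have h' : LinearIndependent ℝ ![x⁻¹ * y, x⁻¹ * v] := by
    rw [LinearIndependent.pair_iff] at h ⊢
    intro s t hst
    apply h s t
    have h1 : x * (s • (x⁻¹ * y) + t • (x⁻¹ * v)) = s • y + t • v := by
      rw [mul_add, mul_smul_comm, mul_smul_comm, ← e, ← e]
    rw [← h1, hst, mul_zero]
  rw [e y, e v, (data G1 G2).flag hx' hu]
  exact div_nonneg (curv_nonneg hu G1 G2 _) ((data G1 G2).den hu h').le

lemma indep_of_br {a b : ℍ} (h : br a b ≠ 0) : LinearIndependent ℝ ![a, b] := by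
  rw [LinearIndependent.pair_iff]
  intro s t hst
  have h1 : s • br a b = 0 := by
    have : br (s • a + t • b) b = 0 := by rw [hst]; simp [br]
    rwa [br_add_left, br_smul_left, br_smul_left, br_self, smul_zero, add_zero] at this
  have h2 : t • br a b = 0 := by
    have h3 : br (s • a + t • b) a = 0 := by rw [hst]; simp [br]
    rw [br_add_left, br_smul_left, br_smul_left, br_self, smul_zero, zero_add, br_swap] at h3
    simpa using h3
  exact ⟨(smul_eq_zero.1 h1).resolve_right h, (smul_eq_zero.1 h2).resolve_right h⟩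

/-- a commutative plane contains the unit -/
lemma one_mem {S : Submodule ℝ ℍ} {a b : ℍ} (ha : a ∈ S) (hb : b ∈ S)
    (h : LinearIndependent ℝ ![a, b]) (hab : br a b = 0) : (1 : ℍ) ∈ S := by
  have c1 : a.imJ * b.imK = a.imK * b.imJ := by
    have := congrArg (fun q : ℍ => q.imI) hab
    simp [br] at this
    linarith
  have c2 : a.imK * b.imI = a.imI * b.imK := by
    have := congrArg (fun q : ℍ => q.imJ) hab
    simp [br] at this
    linarith
  have c3 : a.imI * b.imJ = a.imJ * b.imI := by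
    have := congrArg (fun q : ℍ => q.imK) hab
    simp [br] at this
    linarith
  rw [LinearIndependent.pair_iff] at h
  by_cases hn : b.imI ^ 2 + b.imJ ^ 2 + b.imK ^ 2 = 0
  · have h1 : b.imI = 0 := by nlinarith [sq_nonneg b.imI, sq_nonneg b.imJ, sq_nonneg b.imK]
    have h2 : b.imJ = 0 := by nlinarith [sq_nonneg b.imI, sq_nonneg b.imJ, sq_nonneg b.imK]
    have h3 : b.imK = 0 := by nlinarith [sq_nonneg b.imI, sq_nonneg b.imJ, sq_nonneg b.imK]
    have h4 : b = b.re • (1 : ℍ) := by ext <;> simp [h1, h2, h3]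
    have h5 : b.re ≠ 0 := by
      intro h0
      rw [h0, zero_smul] at h4
      have := h 0 1 (by rw [h4]; simp)
      simp at this
    have h6 : b.re⁻¹ • b = b.re⁻¹ • (b.re • (1 : ℍ)) := congrArg (fun q : ℍ => b.re⁻¹ • q) h4
    rw [smul_smul, inv_mul_cancel₀ h5, one_smul] at h6
    rw [← h6]
    exact S.smul_mem _ hb
  · set m := b.imI ^ 2 + b.imJ ^ 2 + b.imK ^ 2 with hm
    set n := a.imI * b.imI + a.imJ * b.imJ + a.imK * b.imK with hn'
    have h4 : m • a + (-n) • b = (m * a.re - n * b.re) • (1 : ℍ) := by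
      ext
      · simp; ring
      · simp only [Quaternion.imI_add, Quaternion.imI_smul, Quaternion.imI_one, smul_eq_mul]
        rw [hm, hn']
        linear_combination b.imJ * c3 - b.imK * c2
      · simp only [Quaternion.imJ_add, Quaternion.imJ_smul, Quaternion.imJ_one, smul_eq_mul]
        rw [hm, hn']
        linear_combination b.imK * c1 - b.imI * c3
      · simp only [Quaternion.imK_add, Quaternion.imK_smul, Quaternion.imK_one, smul_eq_mul]
        rw [hm, hn']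
        linear_combination b.imI * c2 - b.imJ * c1
    have h5 : m * a.re - n * b.re ≠ 0 := by
      intro h0
      rw [h0, zero_smul] at h4
      exact hn (h _ _ h4).1
    have h6 : (1 : ℍ) = (m * a.re - n * b.re)⁻¹ • (m • a + (-n) • b) := by
      rw [h4, smul_smul, inv_mul_cancel₀ h5, one_smul]
    rw [h6]
    exact S.smul_mem _ (S.add_mem (S.smul_mem _ ha) (S.smul_mem _ hb))

lemma e1_re : e1.re = 0 := rfl
lemma e1_imI : e1.imI = 1 := rfl
lemma e1_imJ : e1.imJ = 0 := rfl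
lemma e1_imK : e1.imK = 0 := rfl
lemma e2_re : e2.re = 0 := rfl
lemma e2_imI : e2.imI = 0 := rfl
lemma e2_imJ : e2.imJ = 1 := rfl
lemma e2_imK : e2.imK = 0 := rfl

/-- the inner product with the unit -/
lemma inner_one (a : ℍ) : ⟪(1 : ℍ), a⟫ = a.re := by
  rw [Quaternion.inner_def]; simp

/-- a non-commutative plane contains a good flag -/
lemma flag_noncomm (G1 : Good ε 1 e1) (G2 : Good ε (-1) e2) {S : Submodule ℝ ℍ} {a b : ℍ}
    (ha : a ∈ S) (hb : b ∈ S) (hab : br a b ≠ 0) :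
    ∃ u ∈ S, ∃ v ∈ S, LinearIndependent ℝ ![u, v] ∧
      0 < ⟪fderiv ℝ (mf ε) u v, curv (Ef ε) u v⟫ := by
  have key : ∀ u v : ℍ, ⟪(1 : ℍ), u⟫ = 0 → br u v ≠ 0 →
      LinearIndependent ℝ ![u, v] ∧ 0 < ⟪fderiv ℝ (mf ε) u v, curv (Ef ε) u v⟫ := by
    intro u v h0 huv
    have hu : u ≠ 0 := by
      rintro rfl
      exact huv (by simp [br])
    refine ⟨indep_of_br huv, ?_⟩
    rw [curv_zero hu G1 G2 h0]
    have := norm_pos_iff.2 huv
    positivity
  by_cases h : ⟪(1 : ℍ), a⟫ = 0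
  · exact ⟨a, ha, b, hb, key a b h hab⟩
  · refine ⟨⟪(1 : ℍ), b⟫ • a - ⟪(1 : ℍ), a⟫ • b,
      S.sub_mem (S.smul_mem _ ha) (S.smul_mem _ hb), a, ha, key _ _ ?_ ?_⟩
    · rw [inner_sub_right, inner_smul_right, inner_smul_right]; ring
    · rw [br_sub_left, br_smul_left, br_smul_left, br_self, smul_zero, zero_sub, br_swap b a,
        smul_neg, neg_neg]
      exact smul_ne_zero h hab

/-- a commutative plane contains a good flag -/
lemma flag_comm (hε : 0 < ε) (G1 : Good ε 1 e1) (G2 : Good ε (-1) e2) {S : Submodule ℝ ℍ}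
    {a b : ℍ} (ha : a ∈ S) (hb : b ∈ S) (h : LinearIndependent ℝ ![a, b]) (hab : br a b = 0) :
    ∃ u ∈ S, ∃ v ∈ S, LinearIndependent ℝ ![u, v] ∧
      0 < ⟪fderiv ℝ (mf ε) u v, curv (Ef ε) u v⟫ := by
  have h1 : (1 : ℍ) ∈ S := one_mem ha hb h hab
  have h11 : ⟪(1 : ℍ), (1 : ℍ)⟫ = 1 := by rw [real_inner_self_eq_norm_sq, norm_one, one_pow]
  obtain ⟨e, he, hre, hne⟩ : ∃ e ∈ S, ⟪(1 : ℍ), e⟫ = 0 ∧ e ≠ 0 := by
    by_cases ha0 : a - ⟪(1 : ℍ), a⟫ • (1 : ℍ) = 0
    · refine ⟨b - ⟪(1 : ℍ), b⟫ • (1 : ℍ), S.sub_mem hb (S.smul_mem _ h1), ?_, ?_⟩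
      · rw [inner_sub_right, inner_smul_right, h11]; ring
      · intro hb0
        rw [LinearIndependent.pair_iff] at h
        obtain ⟨α, hα⟩ : ∃ α : ℝ, a = α • (1 : ℍ) := ⟨_, sub_eq_zero.1 ha0⟩
        obtain ⟨β, hβ⟩ : ∃ β : ℝ, b = β • (1 : ℍ) := ⟨_, sub_eq_zero.1 hb0⟩
        have h3 := h β (-α) (by rw [hα, hβ]; module)
        have h4 : a = 0 := by rw [hα, neg_eq_zero.1 h3.2, zero_smul]
        have := h 1 0 (by rw [h4]; simp)
        simp at this
    · refine ⟨a - ⟪(1 : ℍ), a⟫ • (1 : ℍ), S.sub_mem ha (S.smul_mem _ h1), ?_, ha0⟩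
      rw [inner_sub_right, inner_smul_right, h11]; ring
  have hind : ∀ τ t : ℝ, t ≠ 0 → LinearIndependent ℝ ![τ • (1 : ℍ) + t • e, 1] := by
    intro τ t ht
    rw [LinearIndependent.pair_iff]
    intro s r hsr
    have hee : ⟪e, e⟫ ≠ 0 := by
      rw [real_inner_self_eq_norm_sq]
      exact pow_ne_zero 2 (norm_ne_zero_iff.2 hne)
    have h3 : s * (t * ⟪e, e⟫) = 0 := by
      have := congrArg (fun q : ℍ => ⟪e, q⟫) hsr
      simp only [inner_add_right, inner_smul_right, inner_zero_right] at this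
      rw [real_inner_comm, hre] at this
      linarith
    have hs : s = 0 := (mul_eq_zero.1 h3).resolve_right (mul_ne_zero ht hee)
    rw [hs, zero_smul, zero_add] at hsr
    exact ⟨hs, (smul_eq_zero.1 hsr).resolve_right one_ne_zero⟩
  by_cases hb1 : br e e1 = 0
  · -- use the other half
    have hb2 : br e e2 ≠ 0 := by
      intro hb2
      apply hne
      rw [inner_one] at hre
      have c1 := congrArg (fun q : ℍ => q.imJ) hb1
      have c2 := congrArg (fun q : ℍ => q.imK) hb1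
      have c3 := congrArg (fun q : ℍ => q.imK) hb2
      simp [br, e1_re, e1_imI, e1_imJ, e1_imK, e2_re, e2_imI, e2_imJ, e2_imK] at c1 c2 c3
      ext
      · simpa using hre
      · simp; linarith
      · simp; linarith
      · simp; linarith
    obtain ⟨t, ht, hS⟩ := exists_t hε (by norm_num : (-1 : ℝ) * (-1) = 1) G2 e
    refine ⟨(-1 : ℝ) • (1 : ℍ) + t • e, S.add_mem (S.smul_mem _ h1) (S.smul_mem _ he), 1, h1,
      hind _ _ ht, ?_⟩
    have hlt : ⟪(1 : ℍ), (-1 : ℝ) • (1 : ℍ) + t • e⟫ < 0 := by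
      rw [inner_add_right, inner_smul_right, inner_smul_right, hre, h11]; norm_num
    refine lt_of_lt_of_le ?_ (one_neg_lower G1 G2 hlt 1)
    have hu0 : (-1 : ℝ) • (1 : ℍ) + t • e ≠ 0 := by
      intro h0; rw [h0] at hlt; simp at hlt
    have hA : 0 < Af ε (-1) e2 ((-1 : ℝ) • (1 : ℍ) + t • e) := by linarith [G2.A _ hu0]
    have hq : qv e2 (Sf ε (-1) e2) ((-1 : ℝ) • (1 : ℍ) + t • e) 1 ≠ 0 := by
      rw [qv_one]
      exact smul_ne_zero (mul_ne_zero (neg_ne_zero.2 hS) ht) hb2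
    have := norm_pos_iff.2 hq
    positivity
  · obtain ⟨t, ht, hS⟩ := exists_t hε (by norm_num : (1 : ℝ) * 1 = 1) G1 e
    refine ⟨(1 : ℝ) • (1 : ℍ) + t • e, S.add_mem (S.smul_mem _ h1) (S.smul_mem _ he), 1, h1,
      hind _ _ ht, ?_⟩
    have hlt : 0 < ⟪(1 : ℍ), (1 : ℝ) • (1 : ℍ) + t • e⟫ := by
      rw [inner_add_right, inner_smul_right, inner_smul_right, hre, h11]; norm_num
    refine lt_of_lt_of_le ?_ (one_pos_lower G1 G2 hlt 1)
    have hu0 : (1 : ℝ) • (1 : ℍ) + t • e ≠ 0 := by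
      intro h0; rw [h0] at hlt; simp at hlt
    have hA : 0 < Af ε 1 e1 ((1 : ℝ) • (1 : ℍ) + t • e) := by linarith [G1.A _ hu0]
    have hq : qv e1 (Sf ε 1 e1) ((1 : ℝ) • (1 : ℍ) + t • e) 1 ≠ 0 := by
      rw [qv_one]
      exact smul_ne_zero (mul_ne_zero (neg_ne_zero.2 hS) ht) hb1
    have := norm_pos_iff.2 hq
    positivity

lemma flagwisePos (hε : 0 < ε) (G1 : Good ε 1 e1) (G2 : Good ε (-1) e2) :
    FlagwisePos {x : ℍ | x ≠ 0} (Ff ε) := by
  intro x hx P hP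
  have hx' : x ≠ 0 := hx
  have e : ∀ w : ℍ, x * (x⁻¹ * w) = w := fun w => by
    rw [← mul_assoc, mul_inv_cancel₀ hx', one_mul]
  set S : Submodule ℝ ℍ := P.comap (LinearMap.mulLeft ℝ x) with hS
  have hmem : ∀ w, w ∈ S ↔ x * w ∈ P := fun w => Iff.rfl
  have bas := Module.finBasisOfFinrankEq ℝ P hP
  have hli : LinearIndependent ℝ (fun i => (bas i : ℍ)) :=
    bas.linearIndependent.map' P.subtype (Submodule.ker_subtype P)
  have hab : LinearIndependent ℝ ![x⁻¹ * (bas 0 : ℍ), x⁻¹ * (bas 1 : ℍ)] := by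
    rw [LinearIndependent.pair_iff]
    intro s t hst
    have h1 : s • (bas 0 : ℍ) + t • (bas 1 : ℍ) = 0 := by
      have h2 : x * (s • (x⁻¹ * (bas 0 : ℍ)) + t • (x⁻¹ * (bas 1 : ℍ))) =
          s • (bas 0 : ℍ) + t • (bas 1 : ℍ) := by
        rw [mul_add, mul_smul_comm, mul_smul_comm, e, e]
      rw [← h2, hst, mul_zero]
    have h3 := Fintype.linearIndependent_iff.1 hli ![s, t] (by
      rw [Fin.sum_univ_two]; simpa using h1)
    exact ⟨by simpa using h3 0, by simpa using h3 1⟩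
  have ha : x⁻¹ * (bas 0 : ℍ) ∈ S := by rw [hmem, e]; exact (bas 0).2
  have hb : x⁻¹ * (bas 1 : ℍ) ∈ S := by rw [hmem, e]; exact (bas 1).2
  obtain ⟨u, hu, v, hv, huv, hpos⟩ : ∃ u ∈ S, ∃ v ∈ S, LinearIndependent ℝ ![u, v] ∧
      0 < ⟪fderiv ℝ (mf ε) u v, curv (Ef ε) u v⟫ := by
    by_cases h : br (x⁻¹ * (bas 0 : ℍ)) (x⁻¹ * (bas 1 : ℍ)) = 0
    · exact flag_comm hε G1 G2 ha hb hab h
    · exact flag_noncomm G1 G2 ha hb h
  have hu0 : u ≠ 0 := by
    have := huv.ne_zero 0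
    simpa using this
  refine ⟨x * u, (hmem u).1 hu, x * v, (hmem v).1 hv, ?_, ?_⟩
  · rw [LinearIndependent.pair_iff] at huv ⊢
    intro s t hst
    apply huv s t
    have : x * (s • u + t • v) = 0 := by rw [mul_add, mul_smul_comm, mul_smul_comm, hst]
    exact (mul_eq_zero.1 this).resolve_left hx'
  · rw [(data G1 G2).flag hx' hu0]
    exact div_pos hpos ((data G1 G2).den hu0 huv)

lemma exists_good : ∃ ε > 0, Good ε 1 e1 ∧ Good ε (-1) e2 := by
  obtain ⟨δ1, h1, k1⟩ := good_of_small 1 e1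
  obtain ⟨δ2, h2, k2⟩ := good_of_small (-1) e2
  have hm : 0 < min δ1 δ2 := lt_min h1 h2
  exact ⟨min δ1 δ2, hm, k1 _ hm (min_le_left _ _), k2 _ hm (min_le_right _ _)⟩

end Pool.Agent.H81Fi
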