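import Pool.Agent.Lib.H81.Fi.Curv

/-!
# The functions which define the metric
-/

set_option autoImplicit false

open scoped ContDiff Quaternion RealInnerProductSpace

namespace Pool.Agent.H81Fi

/-- a smooth function which vanishes exactly on the non-positive reals -/
noncomputable def g0 : ℝ → ℝ := expNegInvGlue

noncomputable def ga (t : ℝ) : ℝ := g0 t - t * deriv g0 t

noncomputable def gb (t : ℝ) : ℝ := deriv g0 t

lemma g0_smooth : ContDiff ℝ ∞ g0 := expNegInvGlue.contDiff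

lemma gb_smooth : ContDiff ℝ ∞ gb := (contDiff_infty_iff_deriv.1 g0_smooth).2

lemma ga_smooth : ContDiff ℝ ∞ ga := g0_smooth.sub (contDiff_id.mul gb_smooth)

lemma g0_zero {t : ℝ} (ht : t ≤ 0) : g0 t = 0 := expNegInvGlue.zero_of_nonpos ht

lemma gb_zero {t : ℝ} (ht : t ≤ 0) : gb t = 0 := by
  have h1 : HasDerivAt g0 (gb t) t :=
    (g0_smooth.differentiable (by norm_num)).differentiableAt.hasDerivAt
  have h2 : HasDerivWithinAt g0 0 (Set.Iic t) t := by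
    have : HasDerivWithinAt (fun _ : ℝ => (0 : ℝ)) 0 (Set.Iic t) t := hasDerivWithinAt_const _ _ _
    exact this.congr (fun y hy => g0_zero (le_trans hy ht)) (g0_zero ht)
  exact (uniqueDiffWithinAt_Iic t).eq_deriv _ h1.hasDerivWithinAt h2

lemma ga_zero {t : ℝ} (ht : t ≤ 0) : ga t = 0 := by
  unfold ga
  have := gb_zero ht
  unfold gb at this
  rw [g0_zero ht, this]
  ring

/-- `τ` times the cosine of the angle with the unit -/
noncomputable def tt (τ : ℝ) (u : ℍ) : ℝ := τ * ⟪(1 : ℍ), u⟫ / ‖u‖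

noncomputable def Pf (τ : ℝ) (u : ℍ) : ℝ := ‖u‖ * g0 (tt τ u)

noncomputable def af (τ : ℝ) (u : ℍ) : ℝ := ga (tt τ u) / ‖u‖

noncomputable def bf (τ : ℝ) (u : ℍ) : ℝ := τ * gb (tt τ u)

/-- the gradient of `Pf τ` is `af τ u • u + bf τ u • 1`; this is the gradient of
`Pf τ u * ⟪w, u⟫` -/
noncomputable def Kf (τ : ℝ) (w u : ℍ) : ℍ := ⟪w, u⟫ • (af τ u • u + bf τ u • (1 : ℍ)) + Pf τ u • w

variable {τ : ℝ} {w u : ℍ}

lemma tt_smooth (hu : u ≠ 0) : ContDiffAt ℝ ∞ (tt τ) u := by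
  unfold tt
  exact (contDiffAt_const.mul (contDiffAt_const.inner ℝ contDiffAt_id)).div (contDiffAt_norm ℝ hu)
    (norm_ne_zero_iff.2 hu)

lemma Pf_smooth (hu : u ≠ 0) : ContDiffAt ℝ ∞ (Pf τ) u :=
  (contDiffAt_norm ℝ hu).mul (g0_smooth.contDiffAt.comp u (tt_smooth hu))

lemma af_smooth (hu : u ≠ 0) : ContDiffAt ℝ ∞ (af τ) u :=
  (ga_smooth.contDiffAt.comp u (tt_smooth hu)).div (contDiffAt_norm ℝ hu) (norm_ne_zero_iff.2 hu)

lemma bf_smooth (hu : u ≠ 0) : ContDiffAt ℝ ∞ (bf τ) u :=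
  contDiffAt_const.mul (gb_smooth.contDiffAt.comp u (tt_smooth hu))

lemma Kf_smooth (hu : u ≠ 0) : ContDiffAt ℝ ∞ (Kf τ w) u :=
  ((contDiffAt_const.inner ℝ contDiffAt_id).smul
    (((af_smooth hu).smul contDiffAt_id).add ((bf_smooth hu).smul contDiffAt_const))).add
    ((Pf_smooth hu).smul contDiffAt_const)

/-! ### homogeneity -/

lemma tt_hom {c : ℝ} (hc : 0 < c) : tt τ (c • u) = tt τ u := by
  unfold tt
  rw [inner_smul_right, norm_smul, Real.norm_eq_abs, abs_of_pos hc, mul_left_comm,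
    mul_div_mul_left _ _ hc.ne']

lemma Pf_hom {c : ℝ} (hc : 0 < c) : Pf τ (c • u) = c * Pf τ u := by
  unfold Pf
  rw [tt_hom hc, norm_smul, Real.norm_eq_abs, abs_of_pos hc, mul_assoc]

lemma af_hom {c : ℝ} (hc : 0 < c) : af τ (c • u) = c⁻¹ * af τ u := by
  unfold af
  rw [tt_hom hc, norm_smul, Real.norm_eq_abs, abs_of_pos hc]
  field_simp

lemma bf_hom {c : ℝ} (hc : 0 < c) : bf τ (c • u) = bf τ u := by
  unfold bf
  rw [tt_hom hc]

lemma Kf_hom {c : ℝ} (hc : 0 < c) : Kf τ w (c • u) = c • Kf τ w u := by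
  unfold Kf
  have h1 : (c⁻¹ * af τ u) • (c • u) = af τ u • u := by
    rw [smul_smul]
    congr 1
    field_simp
  rw [af_hom hc, bf_hom hc, Pf_hom hc, inner_smul_right, h1]
  module

/-! ### the half space where everything vanishes -/

lemma tt_nonpos (h : τ * ⟪(1 : ℍ), u⟫ ≤ 0) : tt τ u ≤ 0 := div_nonpos_of_nonpos_of_nonneg h
  (norm_nonneg _)

lemma Pf_zero (h : τ * ⟪(1 : ℍ), u⟫ ≤ 0) : Pf τ u = 0 := by
  unfold Pf; rw [g0_zero (tt_nonpos h), mul_zero]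

lemma af_zero (h : τ * ⟪(1 : ℍ), u⟫ ≤ 0) : af τ u = 0 := by
  unfold af; rw [ga_zero (tt_nonpos h), zero_div]

lemma bf_zero (h : τ * ⟪(1 : ℍ), u⟫ ≤ 0) : bf τ u = 0 := by
  unfold bf; rw [gb_zero (tt_nonpos h), mul_zero]

lemma Kf_zero (h : τ * ⟪(1 : ℍ), u⟫ ≤ 0) : Kf τ w u = 0 := by
  unfold Kf; rw [Pf_zero h, af_zero h, bf_zero h]; simp

/-! ### derivatives -/

/-- the derivative of `tt τ` -/
lemma tt_deriv (hu : u ≠ 0) (v : ℍ) :
    fderiv ℝ (tt τ) u v = τ * (⟪(1 : ℍ), v⟫ / ‖u‖ - ⟪(1 : ℍ), u⟫ * ⟪u, v⟫ / ‖u‖ ^ 3) := by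
  have hn : ‖u‖ ≠ 0 := norm_ne_zero_iff.2 hu
  apply fderiv_line ((tt_smooth hu).differentiableAt (by norm_num))
  have l := line_id u v
  have h1 : HasDerivAt (fun t : ℝ => ‖u + t • v‖ ^ 2) (2 * ⟪u, v⟫) 0 := by
    refine l.norm_sq.congr_deriv ?_
    simp
  have h2 : HasDerivAt (fun t : ℝ => ‖u + t • v‖) (⟪u, v⟫ / ‖u‖) 0 := by
    have h3 := h1.sqrt (by simpa using hn)
    have h4 : (fun t : ℝ => √(‖u + t • v‖ ^ 2)) = fun t : ℝ => ‖u + t • v‖ :=
      funext fun t => Real.sqrt_sq (norm_nonneg _)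
    rw [h4] at h3
    refine h3.congr_deriv ?_
    rw [zero_smul, add_zero, Real.sqrt_sq (norm_nonneg _)]
    field_simp
  have h5 : HasDerivAt (fun t : ℝ => τ * ⟪(1 : ℍ), u + t • v⟫) (τ * ⟪(1 : ℍ), v⟫) 0 := by
    refine (((hasDerivAt_const (0 : ℝ) (1 : ℍ)).inner ℝ l).const_mul τ).congr_deriv ?_
    simp
  refine (h5.div h2 (by simpa using hn)).congr_deriv ?_
  rw [zero_smul, add_zero]
  field_simp

lemma norm_deriv (hu : u ≠ 0) (v : ℍ) : fderiv ℝ (fun a : ℍ => ‖a‖) u v = ⟪u, v⟫ / ‖u‖ := by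
  have hn : ‖u‖ ≠ 0 := norm_ne_zero_iff.2 hu
  apply fderiv_line ((contDiffAt_norm ℝ hu (n := 1)).differentiableAt (by norm_num))
  have l := line_id u v
  have h1 : HasDerivAt (fun t : ℝ => ‖u + t • v‖ ^ 2) (2 * ⟪u, v⟫) 0 := by
    refine l.norm_sq.congr_deriv ?_
    simp
  have h3 := h1.sqrt (by simpa using hn)
  have h4 : (fun t : ℝ => √(‖u + t • v‖ ^ 2)) = fun t : ℝ => ‖u + t • v‖ :=
    funext fun t => Real.sqrt_sq (norm_nonneg _)
  rw [h4] at h3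
  refine h3.congr_deriv ?_
  rw [zero_smul, add_zero, Real.sqrt_sq (norm_nonneg _)]
  field_simp

lemma tt_diff (hu : u ≠ 0) : DifferentiableAt ℝ (tt τ) u :=
  (tt_smooth hu).differentiableAt (by norm_num)

lemma norm_diff (hu : u ≠ 0) : DifferentiableAt ℝ (fun a : ℍ => ‖a‖) u :=
  (contDiffAt_norm ℝ hu (n := 1)).differentiableAt (by norm_num)

lemma Pf_deriv (hu : u ≠ 0) (v : ℍ) :
    fderiv ℝ (Pf τ) u v = ⟪af τ u • u + bf τ u • (1 : ℍ), v⟫ := by
  have hn : ‖u‖ ≠ 0 := norm_ne_zero_iff.2 hu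
  apply fderiv_line ((Pf_smooth hu).differentiableAt (by norm_num))
  have l := line_id u v
  have h1 := comp_line (norm_diff hu) l (by simp)
  have h2 := comp_line (tt_diff (τ := τ) hu) l (by simp)
  have h3 : HasDerivAt g0 (gb (tt τ u)) (tt τ u) :=
    (g0_smooth.differentiable (by norm_num)).differentiableAt.hasDerivAt
  have h4 := h1.mul (h3.comp_of_eq (0 : ℝ) h2 (by simp))
  refine h4.congr_deriv ?_
  rw [tt_deriv hu, norm_deriv hu, inner_add_left, inner_smul_left, inner_smul_left]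
  simp only [zero_smul, add_zero, conj_trivial, Function.comp_apply]
  unfold af bf ga
  have e : deriv g0 (tt τ u) = gb (tt τ u) := rfl
  rw [e]
  have e2 : tt τ u = τ * ⟪(1 : ℍ), u⟫ / ‖u‖ := rfl
  generalize gb (tt τ u) = y
  generalize g0 (tt τ u) = z
  rw [e2]
  field_simp
  ring

/-- functions of the norm and the real part are constant along circles -/
lemma tt_kill (hu : u ≠ 0) {v : ℍ} (h1 : ⟪(1 : ℍ), v⟫ = 0) (h2 : ⟪u, v⟫ = 0) :
    fderiv ℝ (tt τ) u v = 0 := by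
  rw [tt_deriv hu, h1, h2]; simp

lemma Pf_kill (hu : u ≠ 0) {v : ℍ} (h1 : ⟪(1 : ℍ), v⟫ = 0) (h2 : ⟪u, v⟫ = 0) :
    fderiv ℝ (Pf τ) u v = 0 := by
  rw [Pf_deriv hu, inner_add_left, inner_smul_left, inner_smul_left, h1, h2]; simp

lemma af_kill (hu : u ≠ 0) {v : ℍ} (h1 : ⟪(1 : ℍ), v⟫ = 0) (h2 : ⟪u, v⟫ = 0) :
    fderiv ℝ (af τ) u v = 0 := by
  have hn : ‖u‖ ≠ 0 := norm_ne_zero_iff.2 hu
  apply fderiv_line ((af_smooth hu).differentiableAt (by norm_num))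
  have l := line_id u v
  have h3 := comp_line (norm_diff hu) l (by simp)
  have h4 := comp_line (tt_diff (τ := τ) hu) l (by simp)
  have h5 : HasDerivAt ga (deriv ga (tt τ u)) (tt τ u) :=
    (ga_smooth.differentiable (by norm_num)).differentiableAt.hasDerivAt
  have h6 := (h5.comp_of_eq (0 : ℝ) h4 (by simp)).div h3 (by simpa using hn)
  refine h6.congr_deriv ?_
  rw [tt_kill hu h1 h2, norm_deriv hu, h2]
  simp

lemma bf_kill (hu : u ≠ 0) {v : ℍ} (h1 : ⟪(1 : ℍ), v⟫ = 0) (h2 : ⟪u, v⟫ = 0) :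
    fderiv ℝ (bf τ) u v = 0 := by
  apply fderiv_line ((bf_smooth hu).differentiableAt (by norm_num))
  have l := line_id u v
  have h4 := comp_line (tt_diff (τ := τ) hu) l (by simp)
  have h5 : HasDerivAt gb (deriv gb (tt τ u)) (tt τ u) :=
    (gb_smooth.differentiable (by norm_num)).differentiableAt.hasDerivAt
  have h6 := (h5.comp_of_eq (0 : ℝ) h4 (by simp)).const_mul τ
  refine h6.congr_deriv ?_
  rw [tt_kill hu h1 h2]
  simp

/-! ### bounded functions -/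

lemma bounded_of_hom {V : Type*} [NormedAddCommGroup V] (f : ℍ → V)
    (hc : ∀ u, u ≠ 0 → ContinuousAt f u) (hh : ∀ u, u ≠ 0 → ∀ c : ℝ, 0 < c → f (c • u) = f u) :
    ∃ M, ∀ u, u ≠ 0 → ‖f u‖ ≤ M := by
  have h1 : IsCompact (Metric.sphere (0 : ℍ) 1) := isCompact_sphere _ _
  have h2 : ContinuousOn f (Metric.sphere (0 : ℍ) 1) := fun u hu =>
    (hc u (ne_zero_of_mem_unit_sphere ⟨u, hu⟩)).continuousWithinAt
  obtain ⟨M, hM⟩ := h1.exists_bound_of_continuousOn h2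
  refine ⟨M, fun u hu => ?_⟩
  have hn : 0 < ‖u‖ := norm_pos_iff.2 hu
  rw [← hh u hu ‖u‖⁻¹ (inv_pos.2 hn)]
  apply hM
  rw [mem_sphere_zero_iff_norm, norm_smul, norm_inv, norm_norm, inv_mul_cancel₀ hn.ne']

/-- derivative of a homogeneous function -/
lemma fderiv_hom {V : Type*} [NormedAddCommGroup V] [NormedSpace ℝ V] {f : ℍ → V} {c d : ℝ}
    (hd : DifferentiableAt ℝ f (c • u)) (hd' : DifferentiableAt ℝ f u)
    (hh : ∀ᶠ a in nhds u, f (c • a) = d • f a) :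
    c • fderiv ℝ f (c • u) = d • fderiv ℝ f u := by
  have h1 : HasFDerivAt (fun a => f (c • a)) ((fderiv ℝ f (c • u)).comp
      (c • ContinuousLinearMap.id ℝ ℍ)) u :=
    hd.hasFDerivAt.comp u ((hasFDerivAt_id u).const_smul c)
  have h2 : HasFDerivAt (fun a => f (c • a)) (d • fderiv ℝ f u) u :=
    (hd'.hasFDerivAt.const_smul d).congr_of_eventuallyEq hh
  have h3 := h1.unique h2
  rw [← h3]
  ext v
  simp

end Pool.Agent.H81Fi
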